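import Pool.Agent.Lib_helper41.Lat.Gen

/-!
# Block G, part 3: homomorphisms to the integers and splittings
-/

namespace Pool.Agent.Lat

open Set Topology Filter
open scoped Pointwise

set_option linter.unusedSectionVars false
set_option linter.unusedVariables false

theorem exists_int_of_ne_zero {M : Type*} [AddCommGroup M] [Module.Finite ℤ M]
    [IsAddTorsionFree M] (x : M) (hx : x ≠ 0) : ∃ f : M →ₗ[ℤ] ℤ, f x ≠ 0 := by
  have : Module.Free ℤ M := inferInstance
  let b := Module.Free.chooseBasis ℤ M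
  have h : b.repr x ≠ 0 := by simpa using hx
  obtain ⟨i, hi⟩ := Finsupp.ne_iff.1 h
  exact ⟨b.coord i, by simpa using hi⟩

theorem exists_hom_int {Γ : Type*} [Group Γ] (hfg : Group.FG Γ) {W : Type*} [AddCommGroup W]
    [Module ℝ W] (ψ : Γ →* Multiplicative W) (t : Γ) (ht : ψ t ≠ 1) :
    ∃ η : Γ →* Multiplicative ℤ, η t ≠ 1 := by
  -- the range as an additive subgroup of `W`
  let Λ : AddSubgroup W := (MonoidHom.toAdditiveLeft ψ).range
  have hfgΛ : AddGroup.FG Λ := by
    have : AddGroup.FG (Additive Γ) := by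
      rw [← GroupFG.iff_add_fg]
      exact hfg
    exact AddGroup.fg_range _
  have : Module.Finite ℤ Λ := Module.Finite.iff_addGroup_fg.2 hfgΛ
  have : IsAddTorsionFree Λ := by
    refine ⟨fun n hn a b hab => ?_⟩
    have h1 : (n • a : Λ) = n • b := hab
    have h2 : n • (a : W) = n • (b : W) := by
      have := congrArg Subtype.val h1
      simpa using this
    have h3 : ((n : ℝ)) • (a : W) = (n : ℝ) • (b : W) := by
      simpa [Nat.cast_smul_eq_nsmul] using h2
    have hn' : (n : ℝ) ≠ 0 := by exact_mod_cast hn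
    exact Subtype.ext (by
      have := congrArg (fun w => (n : ℝ)⁻¹ • w) h3
      simpa [smul_smul, inv_mul_cancel₀ hn'] using this)
  let x : Λ := ⟨MonoidHom.toAdditiveLeft ψ (Additive.ofMul t), ⟨_, rfl⟩⟩
  have hx : x ≠ 0 := by
    intro h
    apply ht
    have := congrArg Subtype.val h
    exact this
  obtain ⟨f, hf⟩ := exists_int_of_ne_zero x hx
  refine ⟨MonoidHom.mk' (fun γ => Multiplicative.ofAdd
    (f ⟨MonoidHom.toAdditiveLeft ψ (Additive.ofMul γ), ⟨_, rfl⟩⟩)) ?_, ?_⟩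
  · intro a b
    rw [← ofAdd_add, ← map_add]
    congr 2
    apply Subtype.ext
    change MonoidHom.toAdditiveLeft ψ (Additive.ofMul (a * b)) =
      MonoidHom.toAdditiveLeft ψ (Additive.ofMul a) + MonoidHom.toAdditiveLeft ψ (Additive.ofMul b)
    rw [ofMul_mul, map_add]
  · intro h
    exact hf h

/-- a central element detected by a homomorphism to `ℤ` splits off virtually -/
theorem central_split {L : Type*} [Group L] (Γ₁ : Subgroup L) (t : L) (ht : t ∈ Γ₁)
    (hcent : ∀ γ ∈ Γ₁, γ * t = t * γ) (η : Γ₁ →* Multiplicative ℤ) (hη : η ⟨t, ht⟩ ≠ 1) :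
    ∃ N : Subgroup L, N ≤ Γ₁ ∧ N ⊓ Subgroup.zpowers t = ⊥ ∧
      (∃ S : Set L, S.Finite ∧ S ⊆ Γ₁ ∧ ∀ γ ∈ Γ₁, ∃ n ∈ N, ∃ c ∈ Subgroup.zpowers t, ∃ s ∈ S,
        γ = n * c * s) ∧
      ¬ ((Subgroup.zpowers t : Set L).Finite) := by
  classical
  let e : Γ₁ → ℤ := fun γ => Multiplicative.toAdd (η γ)
  have e_mul : ∀ a b, e (a * b) = e a + e b := fun a b => by simp [e]
  have e_inv : ∀ a, e a⁻¹ = - e a := fun a => by simp [e]
  have e_zpow : ∀ (a : Γ₁) (j : ℤ), e (a ^ j) = j * e a := fun a j => by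
    simp [e, toAdd_zpow]
  set τ : Γ₁ := ⟨t, ht⟩ with hτ
  have hm : e τ ≠ 0 := by
    intro h
    exact hη h
  set m := e τ with hmdef
  have hcomm : ∀ (j : ℤ) (γ : L), γ ∈ Γ₁ → γ * t ^ j = t ^ j * γ := by
    intro j γ hγ
    have : Commute γ t := hcent γ hγ
    exact this.zpow_right j
  let rep : ℤ → Γ₁ := fun r => if h : ∃ γ : Γ₁, e γ = r then h.choose else 1
  have hrep : ∀ γ : Γ₁, e (rep (e γ)) = e γ := by
    intro γ
    have h : ∃ γ' : Γ₁, e γ' = e γ := ⟨γ, rfl⟩
    simp only [rep, dif_pos h]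
    exact h.choose_spec
  refine ⟨η.ker.map Γ₁.subtype, ?_, ?_, ?_, ?_⟩
  · rintro _ ⟨γ, _, rfl⟩
    exact γ.2
  · rw [eq_bot_iff]
    rintro x ⟨⟨γ, hγ, rfl⟩, hx⟩
    obtain ⟨j, hj⟩ := Subgroup.mem_zpowers_iff.1 hx
    have h1 : γ = τ ^ j := by
      apply Subtype.ext
      simpa [hτ] using hj.symm
    have h2 : e γ = 0 := by
      have : η γ = 1 := hγ
      simp [e, this]
    rw [h1, e_zpow] at h2
    have h3 : j = 0 := by
      rcases mul_eq_zero.1 h2 with h | h
      · exact h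
      · exact absurd h hm
    rw [h1, h3]
    simp
  · refine ⟨(fun r : ℤ => ((rep r : Γ₁) : L)) '' (Set.Ico 0 |m|), ?_, ?_, ?_⟩
    · exact (Set.finite_Ico 0 |m|).image _
    · rintro _ ⟨r, _, rfl⟩
      exact (rep r).2
    · intro γ hγ
      set g : Γ₁ := ⟨γ, hγ⟩
      set q := e g / m
      set r := e g % m
      have hr : r ∈ Set.Ico 0 |m| := ⟨Int.emod_nonneg _ hm, Int.emod_lt_abs _ hm⟩
      let g' : Γ₁ := g * τ ^ (-q)
      have hg' : e g' = r := by
        rw [e_mul, e_zpow]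
        have := Int.emod_add_mul_ediv (e g) m
        simp only [r, q]
        linarith [mul_comm m (e g / m)]
      let n : Γ₁ := g' * (rep r)⁻¹
      have hn : e n = 0 := by
        rw [e_mul, e_inv]
        have := hrep g'
        rw [hg'] at this
        rw [this, hg']; ring
      refine ⟨n, ⟨n, hn, rfl⟩, t ^ q, Subgroup.zpow_mem_zpowers t q, rep r, ⟨r, hr, rfl⟩, ?_⟩
      have h1 : (n : L) = γ * t ^ (-q) * ((rep r : Γ₁) : L)⁻¹ := by
        simp [n, g', g, hτ]
      rw [h1, mul_assoc (γ * t ^ (-q) * ((rep r : Γ₁) : L)⁻¹), ← hcomm q _ (rep r).2]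
      group
  · rw [finite_zpowers]
    intro h
    obtain ⟨j, hj, hj1⟩ := isOfFinOrder_iff_zpow_eq_one.1 h
    have h1 : τ ^ j = 1 := Subtype.ext (by simpa [hτ] using hj1)
    have h2 := e_zpow τ j
    rw [h1] at h2
    have h3 : e 1 = 0 := by simp [e]
    rw [h3] at h2
    rcases mul_eq_zero.1 h2.symm with h | h
    · exact hj h
    · exact hm h

end Pool.Agent.Lat
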