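import Pool.Agent.Lib_helper4.LatC
import Pool.Agent.Lib_helper41.Lat.Split

/-!
# Block G, part 4: pure translations in a uniform lattice
-/

namespace Pool.Agent.Lat

open Set Topology Filter
open scoped Pointwise

set_option linter.unusedSectionVars false
set_option linter.unusedVariables false

section Trans
variable {n : ℕ}

theorem trans_zero : trans (0 : EE n) = 1 := by
  apply IsometryEquiv.ext; intro v; simp [trans]

theorem trans_add (v w : EE n) : trans (v + w) = trans v * trans w := by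
  apply IsometryEquiv.ext; intro u
  change u + (v + w) = (u + w) + v
  abel

theorem trans_neg (w : EE n) : trans (-w) = (trans w)⁻¹ := by
  rw [eq_inv_iff_mul_eq_one, ← trans_add]
  simp [trans_zero]

theorem trans_injective : Function.Injective (trans : EE n → _) := by
  intro v w h
  have := congrArg (fun f : EE n ≃ᵢ EE n => f 0) h
  simpa using this

theorem conj_trans (b : EE n ≃ᵢ EE n) (w : EE n) : b * trans w * b⁻¹ = trans (lin b w) := by
  apply IsometryEquiv.ext; intro u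
  change b (b⁻¹ u + w) = u + lin b w
  rw [apply_add]
  simp

theorem continuous_trans : Continuous (trans : EE n → EE n ≃ᵢ EE n) := by
  rw [continuous_isom_iff]
  intro x
  change Continuous (fun w : EE n => x + w)
  fun_prop

theorem commute_trans {b : EE n ≃ᵢ EE n} {w : EE n} (h : lin b w = w) :
    b * trans w = trans w * b := by
  have := conj_trans b w
  rw [h] at this
  exact mul_inv_eq_iff_eq_mul.1 this

theorem lin_inv_eq {b : EE n ≃ᵢ EE n} {w : EE n} (h : lin b w = w) : lin b⁻¹ w = w := by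
  have h1 : lin (b⁻¹ * b) w = lin b⁻¹ (lin b w) := lin_mul _ _ _
  rw [inv_mul_cancel, lin_one, h] at h1
  exact h1.symm

end Trans

section Core
variable {X : Type*} [MetricSpace X] {G : Type*} [Group G] [TopologicalSpace G]
  [IsTopologicalGroup G] {n : ℕ} {A : Subgroup (X ≃ᵢ X)}

/-- pure translations in `G × Isom(E^n) × A` -/
noncomputable def TT (G : Type*) [Group G] (A : Subgroup (X ≃ᵢ X)) (w : EE n) :
    G × (EE n ≃ᵢ EE n) × A := (1, trans w, 1)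

theorem TT_add (v w : EE n) : TT G A (v + w) = TT G A v * TT G A w := by
  simp [TT, trans_add]

theorem TT_zero : TT G A (0 : EE n) = 1 := by
  simp [TT, trans_zero, Prod.one_eq_mk]

theorem TT_neg (w : EE n) : TT G A (-w) = (TT G A w)⁻¹ := by
  simp [TT, trans_neg]

theorem TT_injective : Function.Injective (TT G A : EE n → _) := by
  intro v w h
  exact trans_injective (congrArg (fun p => p.2.1) h)

theorem commute_TT {ℓ : G × (EE n ≃ᵢ EE n) × A} {w : EE n} (h : lin ℓ.2.1 w = w) :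
    ℓ * TT G A w = TT G A w * ℓ := by
  refine Prod.ext ?_ (Prod.ext ?_ ?_)
  · simp [TT]
  · simpa [TT] using commute_trans h
  · simp [TT]

theorem continuous_TT : Continuous (TT G A : EE n → _) :=
  continuous_const.prodMk (continuous_trans.prodMk continuous_const)

theorem cocompact_euclid {H₀ : Subgroup G} {N : Subgroup (G × (EE n ≃ᵢ EE n) × A)}
    (hcoc : CocompactIn (N : Set (G × (EE n ≃ᵢ EE n) × A))
      (Subgroup.comap (MonoidHom.fst G ((EE n ≃ᵢ EE n) × A)) H₀)) :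
    Cocompact ((fun ℓ : G × (EE n ≃ᵢ EE n) × A => ℓ.2.1) '' (N : Set _)) := by
  obtain ⟨Q, hQ, _, h⟩ := hcoc
  refine ⟨(fun ℓ : G × (EE n ≃ᵢ EE n) × A => ℓ.2.1) '' Q,
    hQ.image (continuous_fst.comp continuous_snd), fun s => ?_⟩
  obtain ⟨b, hb, q, hq, he⟩ := h (1, s, 1) H₀.one_mem
  exact ⟨_, ⟨b, hb, rfl⟩, _, ⟨q, hq, rfl⟩, congrArg (fun p => p.2.1) he⟩

theorem cocompactIn_X {H₀ : Subgroup G} {N : Subgroup (G × (EE n ≃ᵢ EE n) × A)}
    (hcoc : CocompactIn (N : Set (G × (EE n ≃ᵢ EE n) × A))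
      (Subgroup.comap (MonoidHom.fst G ((EE n ≃ᵢ EE n) × A)) H₀)) :
    CocompactIn ((fun ℓ : G × (EE n ≃ᵢ EE n) × A => (ℓ.2.2 : X ≃ᵢ X)) '' (N : Set _)) A := by
  obtain ⟨Q, hQ, _, h⟩ := hcoc
  refine ⟨(fun ℓ : G × (EE n ≃ᵢ EE n) × A => (ℓ.2.2 : X ≃ᵢ X)) '' Q,
    hQ.image (continuous_subtype_val.comp (continuous_snd.comp continuous_snd)), ?_,
    fun s hs => ?_⟩
  · rintro _ ⟨q, _, rfl⟩
    exact q.2.2.2
  · obtain ⟨b, hb, q, hq, he⟩ := h (1, 1, ⟨s, hs⟩) H₀.one_mem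
    exact ⟨_, ⟨b, hb, rfl⟩, _, ⟨q, hq, rfl⟩, congrArg (fun p => (p.2.2 : X ≃ᵢ X)) he⟩

/-- centralisers of lattices are virtually translations -/
theorem centralizer_near_one (hX : IsCAT0 X) (hmin : ActsMinimally A)
    (hstab : ∀ x : X, ∃ U ∈ 𝓝 (1 : X ≃ᵢ X), ∀ f ∈ U, f ∈ A → f x = x) (H₀ : Subgroup G)
    (N : Subgroup (G × (EE n ≃ᵢ EE n) × A))
    (hcoc : CocompactIn (N : Set (G × (EE n ≃ᵢ EE n) × A))
      (Subgroup.comap (MonoidHom.fst G ((EE n ≃ᵢ EE n) × A)) H₀))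
    (hcent : ∀ g ∈ H₀, (∀ ν ∈ N, ν.1 * g = g * ν.1) → g = 1) :
    ∃ U ∈ 𝓝 (1 : G × (EE n ≃ᵢ EE n) × A), ∀ m ∈ U, m.1 ∈ H₀ → (∀ ν ∈ N, ν * m = m * ν) →
      ∃ w : EE n, (∀ ν ∈ N, lin ν.2.1 w = w) ∧ m = TT G A w := by
  obtain ⟨x₀⟩ := hX.nonempty
  obtain ⟨U, hU, hUA⟩ := hstab x₀
  have hc : Continuous (fun m : G × (EE n ≃ᵢ EE n) × A => (m.2.2 : X ≃ᵢ X)) :=
    continuous_subtype_val.comp (continuous_snd.comp continuous_snd)
  refine ⟨(fun m : G × (EE n ≃ᵢ EE n) × A => (m.2.2 : X ≃ᵢ X)) ⁻¹' U,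
    hc.continuousAt (by simpa using hU), ?_⟩
  intro m hmU hm1 hm
  have h1 : m.1 = 1 := hcent _ hm1 fun ν hν => congrArg Prod.fst (hm ν hν)
  obtain ⟨w, hw, hwN⟩ := euclid_centralizer _ (cocompact_euclid hcoc) m.2.1 (by
    rintro _ ⟨ν, hν, rfl⟩
    exact congrArg (fun p => p.2.1) (hm ν hν))
  have hx : (m.2.2 : X ≃ᵢ X) x₀ = x₀ := hUA _ hmU m.2.2.2
  have hd := hX.displacement_const A hmin _ (cocompactIn_X hcoc) (m.2.2 : X ≃ᵢ X) (by
    rintro _ ⟨ν, hν, rfl⟩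
    exact congrArg (fun p => (p.2.2 : X ≃ᵢ X)) (hm ν hν))
  have h3 : m.2.2 = 1 := by
    apply Subtype.ext
    apply IsometryEquiv.ext
    intro x
    have := hd x x₀
    rw [hx, dist_self] at this
    exact (dist_eq_zero.1 this).symm
  refine ⟨w, fun ν hν => hwN _ ⟨ν, hν, rfl⟩, ?_⟩
  exact Prod.ext h1 (Prod.ext hw h3)

/-- the fixed space of the linear parts -/
noncomputable def fixSub (N : Subgroup (G × (EE n ≃ᵢ EE n) × A)) : Submodule ℝ (EE n) where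
  carrier := {w | ∀ ν ∈ N, lin ν.2.1 w = w}
  add_mem' := by
    intro a b ha hb ν hν
    rw [map_add, ha ν hν, hb ν hν]
  zero_mem' := fun ν _ => map_zero _
  smul_mem' := by
    intro c a ha ν hν
    rw [map_smul, ha ν hν]

/-- Lemma V: pure translations in `N` are cocompact in the fixed space of the linear parts -/
theorem translations_cocompact (hX : IsCAT0 X) (hmin : ActsMinimally A)
    (hstab : ∀ x : X, ∃ U ∈ 𝓝 (1 : X ≃ᵢ X), ∀ f ∈ U, f ∈ A → f x = x) (H₀ : Subgroup G)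
    (N : Subgroup (G × (EE n ≃ᵢ EE n) × A)) (hN : Disc N)
    (hNM : ∀ ν ∈ N, ν.1 ∈ H₀)
    (hcoc : CocompactIn (N : Set (G × (EE n ≃ᵢ EE n) × A))
      (Subgroup.comap (MonoidHom.fst G ((EE n ≃ᵢ EE n) × A)) H₀))
    (F : Set (G × (EE n ≃ᵢ EE n) × A)) (hF : F.Finite) (hFN : Subgroup.closure F = N)
    (hcent : ∀ g ∈ H₀, (∀ ν ∈ N, ν.1 * g = g * ν.1) → g = 1) :
    ∃ R : ℝ, ∀ w : EE n, (∀ ν ∈ N, lin ν.2.1 w = w) →
      ∃ w' : EE n, (∀ ν ∈ N, lin ν.2.1 w' = w') ∧ TT G A w' ∈ N ∧ ‖w - w'‖ ≤ R := by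
  classical
  set W := fixSub N with hW
  let P := W.starProjection
  have hPW : ∀ u, P u ∈ W := fun u => W.starProjection_apply_mem u
  have hPid : ∀ w ∈ W, P w = w := fun w hw => Submodule.starProjection_eq_self_iff.2 hw
  -- elements whose linear part fixes `W`
  let good : G × (EE n ≃ᵢ EE n) × A → Prop := fun ℓ => ∀ w ∈ W, lin ℓ.2.1 w = w
  have good_N : ∀ ν ∈ N, good ν := fun ν hν w hw => hw ν hν
  have good_mul : ∀ a b, good a → good b → good (a * b) := by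
    intro a b ha hb w hw
    rw [Prod.snd_mul, Prod.fst_mul, lin_mul, hb w hw, ha w hw]
  have good_inv : ∀ a, good a → good a⁻¹ := fun a ha w hw => lin_inv_eq (ha w hw)
  have good_TT : ∀ w, good (TT G A w) := fun w v hv => lin_trans w v
  have hPlin : ∀ a, good a → ∀ u, P (lin a.2.1 u) = P u := by
    intro a ha u
    have h : lin a.2.1 u - u ∈ Wᗮ := by
      rw [Submodule.mem_orthogonal]
      intro w hw
      rw [inner_sub_right]
      nth_rewrite 1 [← ha w hw]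
      rw [LinearIsometryEquiv.inner_map_map, sub_self]
    have h2 : P (lin a.2.1 u - u) = 0 := (Submodule.starProjection_apply_eq_zero_iff W).2 h
    rw [map_sub] at h2
    exact sub_eq_zero.1 h2
  let ψ : G × (EE n ≃ᵢ EE n) × A → EE n := fun ℓ => P (ℓ.2.1 0)
  have ψ_mul : ∀ a b, good a → ψ (a * b) = ψ a + ψ b := by
    intro a b ha
    have : (a * b).2.1 0 = a.2.1 0 + lin a.2.1 (b.2.1 0) := by
      rw [Prod.snd_mul, Prod.fst_mul, IsometryEquiv.mul_apply]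
      conv_lhs => rw [← zero_add (b.2.1 0)]
      rw [apply_add]
    simp only [ψ]
    rw [this, map_add, hPlin a ha]
  have ψ_TT : ∀ w ∈ W, ψ (TT G A w) = w := by
    intro w hw
    change P (trans w 0) = w
    rw [trans_apply, zero_add]; exact hPid w hw
  have ψ_W : ∀ a, ψ a ∈ W := fun a => hPW _
  have comm : ∀ a, good a → ∀ w ∈ W, a * TT G A w = TT G A w * a :=
    fun a ha w hw => commute_TT (ha w hw)
  have ψ_one : ψ 1 = 0 := by
    have := ψ_mul 1 1 (fun w _ => lin_one w)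
    rw [one_mul] at this
    simpa using this
  have ψ_inv : ∀ a, good a → ψ a⁻¹ = - ψ a := by
    intro a ha
    have := ψ_mul a a⁻¹ ha
    rw [mul_inv_cancel, ψ_one] at this
    exact (neg_eq_of_add_eq_zero_right this.symm).symm
  let κ : G × (EE n ≃ᵢ EE n) × A → G × (EE n ≃ᵢ EE n) × A := fun ℓ => ℓ * TT G A (-ψ ℓ)
  have κ_mul : ∀ a b, good a → good b → κ (a * b) = κ a * κ b := by
    intro a b ha hb
    simp only [κ]
    rw [ψ_mul a b ha, neg_add, TT_add]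
    have := comm b hb (-ψ a) (W.neg_mem (ψ_W a))
    calc a * b * (TT G A (-ψ a) * TT G A (-ψ b)) = a * (b * TT G A (-ψ a)) * TT G A (-ψ b) := by
          group
      _ = a * (TT G A (-ψ a) * b) * TT G A (-ψ b) := by rw [this]
      _ = _ := by group
  let κ' : N →* G × (EE n ≃ᵢ EE n) × A := MonoidHom.mk' (fun ν => κ ν)
    (fun a b => κ_mul a b (good_N _ a.2) (good_N _ b.2))
  obtain ⟨U₁, hU₁, hcen⟩ := centralizer_near_one hX hmin hstab H₀ N hcoc hcent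
  -- `κ(N)` is discrete
  have hdisc : Disc κ'.range := by
    obtain ⟨U₀, hU₀, hNU⟩ := hN
    have hnh : ∀ f ∈ F, {m : G × (EE n ≃ᵢ EE n) × A | f * m * f⁻¹ * m⁻¹ ∈ U₀} ∈
        𝓝 (1 : G × (EE n ≃ᵢ EE n) × A) := by
      intro f _
      have hc : Continuous (fun m : G × (EE n ≃ᵢ EE n) × A => f * m * f⁻¹ * m⁻¹) := by
        fun_prop
      exact hc.continuousAt (by simpa using hU₀)
    refine ⟨U₁ ∩ ⋂ f ∈ F, {m : G × (EE n ≃ᵢ EE n) × A | f * m * f⁻¹ * m⁻¹ ∈ U₀},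
      inter_mem hU₁ ((biInter_mem hF).2 hnh), ?_⟩
    rintro _ ⟨ν, rfl⟩ ⟨hm1, hm2⟩
    change κ ν ∈ U₁ at hm1
    change κ ν = 1
    have hcomF : ∀ f ∈ F, f * κ ν = κ ν * f := by
      intro f hf
      have hfN : f ∈ N := by rw [← hFN]; exact Subgroup.subset_closure hf
      have h1 : f * κ ν * f⁻¹ * (κ ν)⁻¹ ∈ U₀ := by
        have := mem_iInter₂.1 hm2 f hf
        exact this
      have h2 : f * κ ν * f⁻¹ * (κ ν)⁻¹ = f * ν * f⁻¹ * (ν : G × (EE n ≃ᵢ EE n) × A)⁻¹ := by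
        simp only [κ]
        have := comm f⁻¹ (good_inv _ (good_N f hfN)) (-ψ ν) (W.neg_mem (ψ_W ν))
        calc f * (ν * TT G A (-ψ ν)) * f⁻¹ * (ν * TT G A (-ψ ν))⁻¹
            = f * ν * (TT G A (-ψ ν) * f⁻¹) * (TT G A (-ψ ν))⁻¹ *
              (ν : G × (EE n ≃ᵢ EE n) × A)⁻¹ := by group
          _ = f * ν * (f⁻¹ * TT G A (-ψ ν)) * (TT G A (-ψ ν))⁻¹ *
              (ν : G × (EE n ≃ᵢ EE n) × A)⁻¹ := by rw [this]
          _ = _ := by group
      have h3 : f * ν * f⁻¹ * (ν : G × (EE n ≃ᵢ EE n) × A)⁻¹ ∈ N :=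
        N.mul_mem (N.mul_mem (N.mul_mem hfN ν.2) (N.inv_mem hfN)) (N.inv_mem ν.2)
      rw [h2] at h1
      have h4 := hNU _ h3 h1
      rw [← h2] at h4
      have h5 : f * κ ν * f⁻¹ = κ ν := by
        rw [mul_inv_eq_one] at h4; exact h4
      rw [mul_inv_eq_iff_eq_mul] at h5
      exact h5
    have hcomN : ∀ μ ∈ N, μ * κ ν = κ ν * μ := by
      have hle : Subgroup.closure F ≤ Subgroup.centralizer {κ ν} := by
        rw [Subgroup.closure_le]
        intro f hf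
        rw [SetLike.mem_coe, Subgroup.mem_centralizer_singleton_iff]
        exact hcomF f hf
      intro μ hμ
      have hμF : μ ∈ Subgroup.closure F := by rw [hFN]; exact hμ
      exact Subgroup.mem_centralizer_singleton_iff.1 (hle hμF)
    have h1 : (κ ν).1 ∈ H₀ := by
      have : (κ ν).1 = (ν : G × (EE n ≃ᵢ EE n) × A).1 := by simp [κ, TT]
      rw [this]; exact hNM _ ν.2
    obtain ⟨w, hw, hκ⟩ := hcen _ hm1 h1 hcomN
    have h2 : ψ (κ ν) = 0 := by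
      simp only [κ]
      rw [ψ_mul _ _ (good_N _ ν.2), ψ_TT _ (W.neg_mem (ψ_W ν)), add_neg_cancel]
    rw [hκ, ψ_TT w hw] at h2
    rw [hκ, h2, TT_zero]
  obtain ⟨Q, hQ, hQM, hcov⟩ := hcoc
  have hψc : Continuous ψ := by
    have h1 : Continuous (fun ℓ : G × (EE n ≃ᵢ EE n) × A => ℓ.2.1 0) :=
      (continuous_isom_iff.1 continuous_id (0 : EE n)).comp (continuous_fst.comp continuous_snd)
    exact P.continuous.comp h1
  let K : Set (G × (EE n ≃ᵢ EE n) × A) := (fun q => q⁻¹ * TT G A (ψ q)) '' Q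
  have hK : IsCompact K := hQ.image (continuous_inv.mul (continuous_TT.comp hψc))
  have hfin := hdisc.finite_inter hK
  let ch : G × (EE n ≃ᵢ EE n) × A → G × (EE n ≃ᵢ EE n) × A :=
    fun φ => if h : ∃ ν : N, κ ν = φ then h.choose else 1
  have hch : ∀ ν : N, ch (κ ν) ∈ N ∧ κ (ch (κ ν)) = κ ν := by
    intro ν
    have h : ∃ ν' : N, κ ν' = κ ν := ⟨ν, rfl⟩
    simp only [ch, dif_pos h]
    exact ⟨h.choose.2, h.choose_spec⟩
  obtain ⟨R₁, hR₁⟩ := (hfin.image (fun φ => ‖ψ (ch φ)‖)).bddAbove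
  obtain ⟨R₂, hR₂⟩ := (hQ.image hψc.norm).bddAbove
  refine ⟨R₁ + R₂, fun w hw => ?_⟩
  have hwW : w ∈ W := hw
  obtain ⟨ν, hν, q, hq, he⟩ := hcov (TT G A w) H₀.one_mem
  have hgν := good_N ν hν
  have hqe : q = ν⁻¹ * TT G A w := by rw [he]; group
  have hgq : good q := by rw [hqe]; exact good_mul _ _ (good_inv _ hgν) (good_TT w)
  have hψν : ψ ν = w - ψ q := by
    have := ψ_mul ν q hgν
    rw [← he, ψ_TT w hwW] at this
    rw [this]; abel
  have hκν : κ ν = q⁻¹ * TT G A (ψ q) := by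
    simp only [κ]
    have hνe : ν = TT G A w * q⁻¹ := by rw [he]; group
    rw [hψν]
    have e : -(w - ψ q) = -w + ψ q := by abel
    rw [e, TT_add, hνe, TT_neg]
    have := comm q⁻¹ (good_inv _ hgq) w hwW
    rw [← this]; group
  have hφ : κ ν ∈ (κ'.range : Set _) ∩ K :=
    ⟨⟨⟨ν, hν⟩, rfl⟩, ⟨q, hq, hκν.symm⟩⟩
  obtain ⟨hch1, hch2⟩ := hch ⟨ν, hν⟩
  change ch (κ ν) ∈ N at hch1
  change κ (ch (κ ν)) = κ ν at hch2
  set μ := ch (κ ν) with hμ
  refine ⟨ψ ν - ψ μ, fun τ hτ => ?_, ?_, ?_⟩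
  · exact (W.sub_mem (ψ_W ν) (ψ_W μ)) τ hτ
  · have h1 : μ⁻¹ * ν = TT G A (ψ ν - ψ μ) := by
      have h2 : μ * TT G A (-ψ μ) = ν * TT G A (-ψ ν) := hch2
      rw [TT_neg, TT_neg] at h2
      rw [sub_eq_add_neg, add_comm, TT_add, TT_neg]
      have h3 : ν = μ * (TT G A (ψ μ))⁻¹ * TT G A (ψ ν) := by rw [h2]; group
      calc μ⁻¹ * ν = μ⁻¹ * (μ * (TT G A (ψ μ))⁻¹ * TT G A (ψ ν)) := by rw [← h3]
        _ = (TT G A (ψ μ))⁻¹ * TT G A (ψ ν) := by group
    rw [← h1]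
    exact N.mul_mem (N.inv_mem hch1) hν
  · have h1 : w - (ψ ν - ψ μ) = ψ q + ψ μ := by rw [hψν]; abel
    rw [h1]
    have h2 : ‖ψ μ‖ ≤ R₁ := hR₁ ⟨κ ν, hφ, rfl⟩
    have h3 : ‖ψ q‖ ≤ R₂ := hR₂ ⟨q, hq, rfl⟩
    calc ‖ψ q + ψ μ‖ ≤ ‖ψ q‖ + ‖ψ μ‖ := norm_add_le _ _
      _ ≤ R₁ + R₂ := by linarith

end Core

end Pool.Agent.Lat
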