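import Mathlib

/-!
# Definitions for the first cohomology of irreducible lattices

Isometry groups with the compact-open topology, CAT(0) spaces, polyhedral complexes and their
automorphism groups, semisimple linear groups without compact factors, uniform lattices, algebraic
irreducibility, first singular cohomology.
-/

namespace Pool.Agent.Lat

open Set Topology

universe u

/-! ## Isometry groups -/

/-- The compact-open topology on the isometry group of a metric space. -/
instance isomTopology (M : Type*) [MetricSpace M] : TopologicalSpace (M ≃ᵢ M) :=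
  TopologicalSpace.induced (fun f : M ≃ᵢ M => (⟨f, f.continuous⟩ : C(M, M))) inferInstance

/-! ## CAT(0) spaces -/

/-- A subset of a (uniquely geodesic) metric space is convex if it contains every point lying
metrically between two of its points. -/
def GConvex {X : Type*} [MetricSpace X] (C : Set X) : Prop :=
  ∀ x ∈ C, ∀ y ∈ C, ∀ z : X, dist x z + dist z y = dist x y → z ∈ C

/-- `X` is a CAT(0) space: nonempty, any two points are joined by a geodesic, and every geodesic
triangle satisfies the CAT(0) comparison inequality (the right-hand side is the squared distance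
from the comparison point of `p` to the comparison point of `z` in the Euclidean comparison
triangle of `p, x, y`). -/
structure IsCAT0 (X : Type*) [MetricSpace X] : Prop where
  nonempty : Nonempty X
  geodesic : ∀ x y : X, ∃ g : ℝ → X, g 0 = x ∧ g 1 = y ∧
    ∀ s ∈ Icc (0 : ℝ) 1, ∀ t ∈ Icc (0 : ℝ) 1, dist (g s) (g t) = |s - t| * dist x y
  comparison : ∀ (p x y z : X) (t : ℝ), t ∈ Icc (0 : ℝ) 1 →
    dist x z = t * dist x y → dist z y = (1 - t) * dist x y →
    dist p z ^ 2 ≤ (1 - t) * dist p x ^ 2 + t * dist p y ^ 2 - t * (1 - t) * dist x y ^ 2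

/-! ## Polyhedral complexes -/

/-- A locally finite polyhedral structure on a metric space (to be used for CAT(0) spaces). -/
structure PolyComplex (X : Type*) [MetricSpace X] where
  /-- the closed cells -/
  cells : Set (Set X)
  cell_nonempty : ∀ s ∈ cells, s.Nonempty
  cell_compact : ∀ s ∈ cells, IsCompact s
  cell_convex : ∀ s ∈ cells, GConvex s
  cover : ∀ x : X, ∃ s ∈ cells, x ∈ s
  inter : ∀ s ∈ cells, ∀ t ∈ cells, (s ∩ t).Nonempty → s ∩ t ∈ cells
  locallyFinite : ∀ x : X, ∃ r > 0, {s ∈ cells | (s ∩ Metric.ball x r).Nonempty}.Finite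
  /-- every cell is the closed convex hull of its vertices (its zero-dimensional faces) -/
  hull : ∀ s ∈ cells, ∀ C : Set X, IsClosed C → GConvex C →
    (∀ v ∈ s, {v} ∈ cells → v ∈ C) → s ⊆ C

/-- The automorphism group of a polyhedral complex: isometries permuting the cells. -/
def PolyComplex.Aut {X : Type*} [MetricSpace X] (K : PolyComplex X) : Subgroup (X ≃ᵢ X) where
  carrier := {f | ∀ s : Set X, f '' s ∈ K.cells ↔ s ∈ K.cells}
  one_mem' := fun s => by simp
  mul_mem' := by
    intro f g hf hg s
    have : (f * g : X ≃ᵢ X) '' s = f '' (g '' s) := by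
      rw [IsometryEquiv.coe_mul, image_comp]
    rw [this, hf, hg]
  inv_mem' := by
    intro f hf s
    have : f '' ((f⁻¹ : X ≃ᵢ X) '' s) = s := by
      rw [← image_comp]
      have : (f ∘ (f⁻¹ : X ≃ᵢ X)) = id := by
        ext x; simp
      rw [this, image_id]
    rw [← hf, this]

/-- A group of isometries acts cocompactly. -/
def ActsCocompactly {X : Type*} [MetricSpace X] (A : Subgroup (X ≃ᵢ X)) : Prop :=
  ∃ Q : Set X, IsCompact Q ∧ ∀ x : X, ∃ a ∈ A, a x ∈ Q

/-- A group of isometries acts minimally: no nonempty proper invariant closed convex subset. -/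
def ActsMinimally {X : Type*} [MetricSpace X] (A : Subgroup (X ≃ᵢ X)) : Prop :=
  ∀ C : Set X, C.Nonempty → IsClosed C → GConvex C → (∀ a ∈ A, ∀ x ∈ C, a x ∈ C) → C = univ

/-! ## Semisimple groups of noncompact type -/

/-- Connected semisimple linear groups without compact factors: connected topological groups with
finite centre, without infinite compact normal subgroups, isomorphic to a closed group of real
matrices stable under transposition. (The identity component of the isometry group of a symmetric
space of noncompact type is of this kind, in the adjoint representation.) -/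
def IsLinearSemisimple (G : Type*) [Group G] [TopologicalSpace G] : Prop :=
  ConnectedSpace G ∧ (Set.center G).Finite ∧
  (∀ N : Subgroup G, N.Normal → IsCompact (N : Set G) → (N : Set G).Finite) ∧
  ∃ (m : ℕ) (ρ : G →* GL (Fin m) ℝ), IsClosedEmbedding ρ ∧
    ∀ g : G, ∃ g' : G, (ρ g' : Matrix (Fin m) (Fin m) ℝ) = (ρ g : Matrix (Fin m) (Fin m) ℝ).transpose

/-- `G` contains an open subgroup of finite index which is a connected semisimple linear group
without compact factors. -/
def IsSemisimpleGroup (G : Type*) [Group G] [TopologicalSpace G] : Prop :=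
  ∃ G₀ : Subgroup G, IsOpen (G₀ : Set G) ∧ G₀.FiniteIndex ∧ IsLinearSemisimple G₀

/-! ## Lattices -/

/-- Uniform lattice: discrete subgroup with compact quotient. -/
def IsUniformLattice {L : Type*} [Group L] [TopologicalSpace L] (Γ : Subgroup L) : Prop :=
  DiscreteTopology Γ ∧ CompactSpace (L ⧸ Γ)

/-- No finite-index subgroup splits as a direct product of two infinite groups. -/
def AlgIrreducible (Γ : Type u) [Group Γ] : Prop :=
  ∀ Γ' : Subgroup Γ, Γ'.FiniteIndex → ∀ (P Q : Type u) [Group P] [Group Q],
    Nonempty (Γ' ≃* P × Q) → Finite P ∨ Finite Q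

/-! ## Singular cohomology -/

/-- Singular `n`-simplices. -/
abbrev SingSimplex (n : ℕ) (B : Type*) [TopologicalSpace B] := C(stdSimplex ℝ (Fin (n + 1)), B)

/-- The `i`-th face of a singular simplex. -/
noncomputable def SingSimplex.face {n : ℕ} {B : Type*} [TopologicalSpace B] (i : Fin (n + 2))
    (s : SingSimplex (n + 1) B) : SingSimplex n B :=
  s.comp ⟨stdSimplex.map i.succAbove, stdSimplex.continuous_map _⟩

/-- The singular coboundary on integral cochains. -/
noncomputable def coboundary (n : ℕ) (B : Type*) [TopologicalSpace B] :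
    (SingSimplex n B → ℤ) →+ (SingSimplex (n + 1) B → ℤ) where
  toFun c s := ∑ i : Fin (n + 2), (-1) ^ (i : ℕ) * c (s.face i)
  map_zero' := by ext s; simp
  map_add' c d := by ext s; simp [mul_add, Finset.sum_add_distrib]

/-- Singular 1-cocycles. -/
noncomputable def cocycles1 (B : Type*) [TopologicalSpace B] : AddSubgroup (SingSimplex 1 B → ℤ) :=
  (coboundary 1 B).ker

/-- Singular 1-coboundaries. -/
noncomputable def coboundaries1 (B : Type*) [TopologicalSpace B] :
    AddSubgroup (SingSimplex 1 B → ℤ) :=
  (coboundary 0 B).range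

/-- First singular cohomology group with integer coefficients. -/
def SingularCohomology1 (B : Type*) [TopologicalSpace B] : Type _ :=
  cocycles1 B ⧸ (coboundaries1 B).addSubgroupOf (cocycles1 B)

noncomputable instance singularCohomology1AddCommGroup (B : Type*) [TopologicalSpace B] :
    AddCommGroup (SingularCohomology1 B) :=
  QuotientAddGroup.Quotient.addCommGroup ((coboundaries1 B).addSubgroupOf (cocycles1 B))

/-! ## Group cohomology -/

/-- First group cohomology with trivial integer coefficients (Mathlib's `groupCohomology.H1`). -/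
def GroupCohomology1 (Γ : Type) [Group Γ] : Type := groupCohomology.H1 (Rep.trivial ℤ Γ ℤ)

noncomputable instance groupCohomology1AddCommGroup (Γ : Type) [Group Γ] :
    AddCommGroup (GroupCohomology1 Γ) :=
  (inferInstance : AddCommGroup (groupCohomology.H1 (Rep.trivial ℤ Γ ℤ)))

/-! ## The ambient group and the quotient space -/

/-- The isometry group of Euclidean `n`-space. -/
def EuclideanIsom (n : ℕ) : Type := EuclideanSpace ℝ (Fin n) ≃ᵢ EuclideanSpace ℝ (Fin n)

noncomputable instance euclideanIsomGroup (n : ℕ) : Group (EuclideanIsom n) :=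
  (inferInstance : Group (EuclideanSpace ℝ (Fin n) ≃ᵢ EuclideanSpace ℝ (Fin n)))

/-- the compact-open topology -/
noncomputable instance euclideanIsomTopology (n : ℕ) : TopologicalSpace (EuclideanIsom n) :=
  isomTopology (EuclideanSpace ℝ (Fin n))

/-- The group `Aut(X)` as a type. -/
def AutGroup {X : Type*} [MetricSpace X] (K : PolyComplex X) : Type _ := K.Aut

instance autGroupGroup {X : Type*} [MetricSpace X] (K : PolyComplex X) : Group (AutGroup K) :=
  K.Aut.toGroup

/-- the subspace topology of the compact-open topology -/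
instance autGroupTopology {X : Type*} [MetricSpace X] (K : PolyComplex X) :
    TopologicalSpace (AutGroup K) := (inferInstance : TopologicalSpace K.Aut)

/-- The action of `Aut(X)` on `X`. -/
def AutGroup.toIsom {X : Type*} [MetricSpace X] {K : PolyComplex X} (a : AutGroup K) : X ≃ᵢ X :=
  Subtype.val a

/-- The group `G × Isom(E^n) × Aut(X)`. -/
def Ambient (G : Type*) (n : ℕ) {X : Type*} [MetricSpace X] (K : PolyComplex X) : Type _ :=
  G × EuclideanIsom n × AutGroup K

noncomputable instance ambientGroup (G : Type*) [Group G] (n : ℕ) {X : Type*} [MetricSpace X]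
    (K : PolyComplex X) : Group (Ambient G n K) :=
  (inferInstance : Group (G × EuclideanIsom n × AutGroup K))

/-- the product topology -/
noncomputable instance ambientTopology (G : Type*) [TopologicalSpace G] (n : ℕ) {X : Type*}
    [MetricSpace X] (K : PolyComplex X) : TopologicalSpace (Ambient G n K) :=
  (inferInstance : TopologicalSpace (G × EuclideanIsom n × AutGroup K))

/-- the projection to `Aut(X)` -/
noncomputable def Ambient.proj (G : Type*) [Group G] (n : ℕ) {X : Type*} [MetricSpace X]
    (K : PolyComplex X) : Ambient G n K →* AutGroup K :=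
  (MonoidHom.snd (EuclideanIsom n) (AutGroup K)).comp
    (MonoidHom.snd G (EuclideanIsom n × AutGroup K))

/-- The orbit relation on `X` of a subgroup `Γ` of `G × Isom(E^n) × Aut(X)`, acting through the
projection to `Aut(X)`. -/
def OrbitRel {X G : Type*} [MetricSpace X] [Group G] {n : ℕ} {K : PolyComplex X}
    (Γ : Subgroup (Ambient G n K)) (x y : X) : Prop :=
  ∃ γ ∈ Γ, (Ambient.proj G n K γ).toIsom x = y

theorem orbitRel_equivalence {X G : Type*} [MetricSpace X] [Group G] {n : ℕ} {K : PolyComplex X}
    (Γ : Subgroup (Ambient G n K)) : Equivalence (OrbitRel Γ) := by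
  refine ⟨fun x => ⟨1, Γ.one_mem, ?_⟩, ?_, ?_⟩
  · rfl
  · rintro x y ⟨γ, hγ, rfl⟩
    exact ⟨γ⁻¹, Γ.inv_mem hγ, (Ambient.proj G n K γ).toIsom.symm_apply_apply x⟩
  · rintro x y z ⟨γ, hγ, rfl⟩ ⟨δ, hδ, rfl⟩
    exact ⟨δ * γ, Γ.mul_mem hδ hγ, rfl⟩

/-- The quotient space `X / Γ`. -/
def QuotientSpace {X G : Type*} [MetricSpace X] [Group G] {n : ℕ} {K : PolyComplex X}
    (Γ : Subgroup (Ambient G n K)) : Type _ :=
  Quotient ⟨OrbitRel Γ, orbitRel_equivalence Γ⟩

/-- the quotient topology -/
instance quotientSpaceTopology {X G : Type*} [MetricSpace X] [Group G] {n : ℕ}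
    {K : PolyComplex X} (Γ : Subgroup (Ambient G n K)) : TopologicalSpace (QuotientSpace Γ) :=
  (inferInstance : TopologicalSpace (Quotient ⟨OrbitRel Γ, orbitRel_equivalence Γ⟩))

end Pool.Agent.Lat
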