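import Pool.Agent.Lib_helper41.Lat.S.G

/-!
# The quotient of a semisimple linear group by its centre
-/

namespace Pool.Agent.Lat

open Set Topology Filter
open scoped Pointwise

/-- The properties of the group `G` which are used in the proof. -/
structure SSI (G : Type*) [Group G] [TopologicalSpace G] : Prop where
  conn : ConnectedSpace G
  lc : LocallyCompactSpace G
  sc : SecondCountableTopology G
  t2 : T2Space G
  gen : CompactlyGen (⊤ : Subgroup G)
  nochar : NoChar G
  cent : ∀ B : Set G, Cocompact B → ∀ z, (∀ b ∈ B, b * z = z * b) → z = 1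
  struct : ∀ H : Subgroup G, IsClosed (H : Set G) → Rec (H : Set G) →
    ∃ H₀ C : Subgroup G, H₀ ≤ H ∧ (∃ U ∈ 𝓝 (1 : G), ∀ h ∈ H, h ∈ U → h ∈ H₀) ∧
      IsClosed (H₀ : Set G) ∧ CompactlyGen H₀ ∧ IsClosed (C : Set G) ∧
      (∀ h ∈ H₀, ∀ c ∈ C, h * c = c * h) ∧ (∀ g : G, ∃ h ∈ H₀, ∃ c ∈ C, g = h * c) ∧
      (Cocompact (H₀ : Set G) → C = ⊥)

section Quot
variable {G : Type*} [Group G] [TopologicalSpace G] [IsTopologicalGroup G]

/-- an element commuting with a cocompact set up to central elements is central -/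
theorem ss_centralizer_mod (hG : IsLinearSemisimple G) (B : Set G) (hB : Cocompact B) (z : G)
    (hz : ∀ b ∈ B, b * z * b⁻¹ * z⁻¹ ∈ Subgroup.center G) (g : G) : g * z = z * g := by
  classical
  have hfin : (Subgroup.center G : Set G).Finite := hG.2.1
  -- representatives
  let rep : G → G := fun ζ => if h : ∃ b ∈ B, b * z * b⁻¹ * z⁻¹ = ζ then h.choose else 1
  have hrep : ∀ ζ, (∃ b ∈ B, b * z * b⁻¹ * z⁻¹ = ζ) →
      rep ζ ∈ B ∧ rep ζ * z * (rep ζ)⁻¹ * z⁻¹ = ζ := by
    intro ζ h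
    simp only [rep, dif_pos h]
    exact h.choose_spec
  obtain ⟨Q, hQ, hcov⟩ := hB
  refine ss_centralizer hG {b | b * z = z * b} ⟨(rep '' (Subgroup.center G : Set G)) * Q,
    (hfin.image rep).isCompact.mul hQ, fun x => ?_⟩ z (fun b hb => hb) g
  obtain ⟨b, hb, q, hq, rfl⟩ := hcov x
  set ζ := b * z * b⁻¹ * z⁻¹ with hζ
  obtain ⟨h1, h2⟩ := hrep ζ ⟨b, hb, rfl⟩
  have hζc : ζ ∈ Subgroup.center G := hz b hb
  refine ⟨b * (rep ζ)⁻¹, ?_, rep ζ * q, Set.mul_mem_mul ⟨ζ, hζc, rfl⟩ hq, by group⟩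
  have e1 : b * z * b⁻¹ = ζ * z := by rw [hζ]; group
  have e2 : rep ζ * z * (rep ζ)⁻¹ = ζ * z := by
    calc rep ζ * z * (rep ζ)⁻¹ = (rep ζ * z * (rep ζ)⁻¹ * z⁻¹) * z := by group
      _ = ζ * z := by rw [h2]
  have hcom : ζ * z = z * ζ := (Subgroup.mem_center_iff.1 hζc z).symm
  have hcom' : ∀ y, ζ * y = y * ζ := fun y => (Subgroup.mem_center_iff.1 hζc y).symm
  have e3 : (rep ζ)⁻¹ * z * rep ζ = ζ⁻¹ * z := by
    have h3 : z = (rep ζ)⁻¹ * (ζ * z) * rep ζ := by rw [← e2]; group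
    have h4 : z = ζ * ((rep ζ)⁻¹ * z * rep ζ) := by
      calc z = (rep ζ)⁻¹ * (ζ * z) * rep ζ := h3
        _ = ((rep ζ)⁻¹ * ζ) * z * rep ζ := by group
        _ = (ζ * (rep ζ)⁻¹) * z * rep ζ := by rw [hcom']
        _ = _ := by group
    rw [eq_inv_mul_iff_mul_eq]
    exact h4.symm
  change b * (rep ζ)⁻¹ * z = z * (b * (rep ζ)⁻¹)
  have h5 : b * ((rep ζ)⁻¹ * z * rep ζ) * b⁻¹ = z := by
    rw [e3]
    have h6 : b * (ζ⁻¹ * z) * b⁻¹ = ζ⁻¹ * (b * z * b⁻¹) := by
      have h7 : b * ζ⁻¹ = ζ⁻¹ * b := by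
        have := (Subgroup.mem_center_iff.1 ((Subgroup.center G).inv_mem hζc) b)
        exact this
      calc b * (ζ⁻¹ * z) * b⁻¹ = (b * ζ⁻¹) * z * b⁻¹ := by group
        _ = (ζ⁻¹ * b) * z * b⁻¹ := by rw [h7]
        _ = _ := by group
    rw [h6, e1]; group
  calc b * (rep ζ)⁻¹ * z = (b * ((rep ζ)⁻¹ * z * rep ζ) * b⁻¹) * (b * (rep ζ)⁻¹) := by group
    _ = z * (b * (rep ζ)⁻¹) := by rw [h5]

/-- the quotient by the centre -/
abbrev AdG (G : Type*) [Group G] : Type _ := G ⧸ Subgroup.center G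

/-- the projection -/
abbrev ad (G : Type*) [Group G] : G →* AdG G := QuotientGroup.mk' (Subgroup.center G)

omit [TopologicalSpace G] [IsTopologicalGroup G] in
theorem ad_surj (x : AdG G) : ∃ g : G, ad G g = x := QuotientGroup.mk'_surjective _ x

omit [TopologicalSpace G] [IsTopologicalGroup G] in
theorem ad_eq_iff {g h : G} : ad G g = ad G h ↔ g⁻¹ * h ∈ Subgroup.center G := by
  rw [QuotientGroup.mk'_apply, QuotientGroup.mk'_apply, QuotientGroup.eq]

theorem continuous_ad : Continuous (ad G) := continuous_quotient_mk'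

theorem isOpenMap_ad : IsOpenMap (ad G) := QuotientGroup.isOpenMap_coe

theorem isQuotientMap_ad : IsQuotientMap (ad G) := QuotientGroup.isQuotientMap_mk _

/-- a compact set of the quotient is the image of a compact set -/
theorem exists_compact_lift [LocallyCompactSpace G] {K : Set (AdG G)} (hK : IsCompact K) :
    ∃ Q : Set G, IsCompact Q ∧ K ⊆ ad G '' Q := by
  obtain ⟨V, hV, hV1⟩ := exists_compact_mem_nhds (1 : G)
  have hopen : ∀ x : G, IsOpen (ad G '' ((fun y => x * y) '' interior V)) := by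
    intro x
    exact isOpenMap_ad _ ((Homeomorph.mulLeft x).isOpenMap _ isOpen_interior)
  have hcov : K ⊆ ⋃ x : G, ad G '' ((fun y => x * y) '' interior V) := by
    intro c _
    obtain ⟨x, rfl⟩ := ad_surj c
    exact mem_iUnion.2 ⟨x, x, ⟨1, mem_interior_iff_mem_nhds.2 hV1, mul_one x⟩, rfl⟩
  obtain ⟨t, ht⟩ := hK.elim_finite_subcover _ hopen hcov
  refine ⟨⋃ x ∈ t, (fun y => x * y) '' V,
    t.isCompact_biUnion fun x _ => hV.image (continuous_const_mul x), ?_⟩
  intro c hc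
  obtain ⟨x, hx, _, ⟨y, hy, rfl⟩, hl⟩ := by
    simpa only [mem_iUnion, exists_prop] using ht hc
  exact ⟨x * y, mem_iUnion₂.2 ⟨x, hx, y, interior_subset hy, rfl⟩, hl⟩

theorem ssi_ad (hG : IsLinearSemisimple G) : SSI (AdG G) := by
  classical
  obtain ⟨hLC, hSC, hT2⟩ := ss_topology hG
  have hfin : (Subgroup.center G : Set G).Finite := hG.2.1
  have hcl : IsClosed (Subgroup.center G : Set G) := hfin.isClosed
  have hc : ConnectedSpace G := hG.1
  have hZc : IsCompact (Subgroup.center G : Set G) := hfin.isCompact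
  have hcompat : ∀ Q : Set G, IsCompact Q → IsCompact (ad G '' Q) := fun Q hQ =>
    hQ.image continuous_ad
  -- closed sets
  have hclosed : ∀ S : Subgroup G, IsClosed (S : Set G) →
      IsClosed ((S.map (ad G) : Subgroup (AdG G)) : Set (AdG G)) := by
    intro S hS
    have h1 : IsClosed ((Subgroup.center G : Set G) * (S : Set G)) := hS.mul_left_of_isCompact hZc
    have h2 : (ad G) ⁻¹' ((S.map (ad G) : Subgroup (AdG G)) : Set (AdG G)) =
        (Subgroup.center G : Set G) * (S : Set G) := by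
      ext g
      constructor
      · rintro ⟨s, hs, he⟩
        have h3 := ad_eq_iff.1 he
        refine ⟨s⁻¹ * g, h3, s, hs, ?_⟩
        have h4 := Subgroup.mem_center_iff.1 h3 s
        change s⁻¹ * g * s = g
        rw [← h4]; group
      · rintro ⟨z, hz, s, hs, rfl⟩
        refine ⟨s, hs, ?_⟩
        rw [ad_eq_iff]
        have h4 := Subgroup.mem_center_iff.1 hz s
        change s⁻¹ * (z * s) ∈ _
        have : s⁻¹ * (z * s) = z := by rw [← h4]; group
        rw [this]; exact hz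
    have h5 : IsQuotientMap (ad G) := isQuotientMap_ad
    rw [← h5.isClosed_preimage, h2]
    exact h1
  refine ⟨?_, ?_, ?_, ?_, ?_, ?_, ?_, ?_⟩
  · have hs : Function.Surjective (ad G) := ad_surj
    exact hs.connectedSpace continuous_ad
  · infer_instance
  · infer_instance
  · have : IsClosed ((Subgroup.center G : Subgroup G) : Set G) := hcl
    infer_instance
  · -- compactly generated
    obtain ⟨Q, hQ, hQg⟩ := ss_compactlyGen hG
    refine ⟨ad G '' Q, hcompat Q hQ, ?_⟩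
    have h1 := (MonoidHom.map_closure (ad G) Q).symm
    rw [hQg] at h1
    rw [h1, ← MonoidHom.range_eq_map, MonoidHom.range_eq_top]
    exact ad_surj
  · -- no characters
    intro χ hχ hmul x
    obtain ⟨g, rfl⟩ := ad_surj x
    exact ss_noChar hG (fun g => χ (ad G g)) (hχ.comp continuous_ad)
      (fun g h => by rw [map_mul, hmul]) g
  · -- centralisers
    intro B hB z' hz'
    obtain ⟨z, rfl⟩ := ad_surj z'
    obtain ⟨K, hK, hcov⟩ := hB
    obtain ⟨Q, hQ, hKQ⟩ := exists_compact_lift hK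
    have hcov' : Cocompact ((ad G) ⁻¹' B) := by
      refine ⟨Q, hQ, fun g => ?_⟩
      obtain ⟨b, hb, k, hk, he⟩ := hcov (ad G g)
      obtain ⟨q, hq, rfl⟩ := hKQ hk
      refine ⟨g * q⁻¹, ?_, q, hq, by group⟩
      change ad G (g * q⁻¹) ∈ B
      have : ad G (g * q⁻¹) = b := by rw [map_mul, map_inv, he]; group
      rw [this]; exact hb
    have h1 := ss_centralizer_mod hG _ hcov' z (fun b hb => by
      have h2 := hz' _ hb
      rw [← map_mul, ← map_mul, ad_eq_iff] at h2
      have h3 := (Subgroup.center G).inv_mem h2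
      have h4 : ((b * z)⁻¹ * (z * b))⁻¹ = b⁻¹ * (z⁻¹ * b * z) := by group
      -- `b z b⁻¹ z⁻¹` is conjugate to the inverse
      have h5 : b * z * b⁻¹ * z⁻¹ = (z * b) * ((b * z)⁻¹ * (z * b))⁻¹ * (z * b)⁻¹ := by group
      rw [h5]
      have h6 := Subgroup.mem_center_iff.1 h3 (z * b)
      rw [h6]
      have : ((b * z)⁻¹ * (z * b))⁻¹ * (z * b) * (z * b)⁻¹ = ((b * z)⁻¹ * (z * b))⁻¹ := by group
      rw [this]; exact h3)
    have h2 : z ∈ Subgroup.center G := Subgroup.mem_center_iff.2 h1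
    exact (QuotientGroup.eq_one_iff z).2 h2
  · -- structure
    intro H hH hrec
    have hH' : IsClosed ((H.comap (ad G) : Subgroup G) : Set G) := hH.preimage continuous_ad
    have hrec' : Rec ((H.comap (ad G) : Subgroup G) : Set G) := by
      intro θ hθ hinv x hx
      -- descend
      have hdesc : ∀ g h : G, ad G g = ad G h → θ g = θ h := by
        intro g h hgh
        have h1 := ad_eq_iff.1 hgh
        have h2 : h = (g⁻¹ * h) * g := by
          rw [← Subgroup.mem_center_iff.1 h1 g]; group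
        rw [h2]
        refine (hinv _ ?_ g).symm
        change ad G (g⁻¹ * h) ∈ H
        have : ad G (g⁻¹ * h) = 1 := (QuotientGroup.eq_one_iff _).2 h1
        rw [this]; exact H.one_mem
      let θ' : AdG G → ℝ := fun y => θ (ad_surj y).choose
      have hθ' : ∀ g, θ' (ad G g) = θ g := fun g => hdesc _ _ (ad_surj (ad G g)).choose_spec
      have hθ'c : Continuous θ' := by
        have h5 : IsQuotientMap (ad G) := isQuotientMap_ad
        rw [h5.continuous_iff]
        have : θ' ∘ ad G = θ := by funext g; exact hθ' g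
        rw [this]; exact hθ
      intro g
      have := hrec θ' hθ'c (fun h hh y => by
        obtain ⟨h, rfl⟩ := ad_surj h
        obtain ⟨y, rfl⟩ := ad_surj y
        rw [← map_mul, hθ', hθ']
        exact hinv h hh y) (ad G x) (fun y => by
        obtain ⟨y, rfl⟩ := ad_surj y
        rw [← map_mul, hθ', hθ']
        exact hx y) (ad G g)
      rwa [← map_mul, hθ', hθ'] at this
    obtain ⟨H₀, C, h1, ⟨U, hU, hUH⟩, h3, h4, h5, h6, h7, h8⟩ := ss_struct hG _ hH' hrec'
    refine ⟨H₀.map (ad G), C.map (ad G), ?_, ?_, hclosed _ h3, ?_, hclosed _ h5, ?_, ?_, ?_⟩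
    · rintro _ ⟨h, hh, rfl⟩
      exact h1 hh
    · refine ⟨ad G '' U, ?_, ?_⟩
      · rw [← map_one (ad G)]
        exact isOpenMap_ad.image_mem_nhds hU
      · rintro _ hh ⟨u, hu, rfl⟩
        exact ⟨u, hUH u hh hu, rfl⟩
    · obtain ⟨Q, hQ, hQg⟩ := h4
      refine ⟨ad G '' Q, hcompat Q hQ, ?_⟩
      rw [← MonoidHom.map_closure, hQg]
    · rintro _ ⟨h, hh, rfl⟩ _ ⟨c, hc, rfl⟩
      rw [← map_mul, ← map_mul, h6 h hh c hc]
    · intro x
      obtain ⟨g, rfl⟩ := ad_surj x
      obtain ⟨h, hh, c, hc, rfl⟩ := h7 g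
      exact ⟨ad G h, ⟨h, hh, rfl⟩, ad G c, ⟨c, hc, rfl⟩, map_mul _ _ _⟩
    · intro hcc
      have hcc' : Cocompact (H₀ : Set G) := by
        obtain ⟨K, hK, hcov⟩ := hcc
        obtain ⟨Q, hQ, hKQ⟩ := exists_compact_lift hK
        refine ⟨(Subgroup.center G : Set G) * Q, hZc.mul hQ, fun g => ?_⟩
        obtain ⟨_, ⟨h, hh, rfl⟩, k, hk, he⟩ := hcov (ad G g)
        obtain ⟨q, hq, rfl⟩ := hKQ hk
        rw [← map_mul] at he
        have h9 := ad_eq_iff.1 he.symm
        refine ⟨h, hh, ((h * q)⁻¹ * g) * q, Set.mul_mem_mul h9 hq, ?_⟩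
        have h10 := Subgroup.mem_center_iff.1 h9 q
        rw [← h10]; group
      have h9 := h8 hcc'
      rw [Subgroup.eq_bot_iff_forall]
      rintro _ ⟨c, hc, rfl⟩
      exact (QuotientGroup.eq_one_iff c).2 (Subgroup.mem_center_iff.2 (h9 c hc))

end Quot

end Pool.Agent.Lat
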