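import Pool.Agent.Lib_helper41.Lat.Pr
import Pool.Agent.Lib_helper41.Lat.SSI
import Pool.Agent.Lib_helper95.LatHarm

/-!
# Block G, part 6: dense projection of irreducible lattices
-/

namespace Pool.Agent.Lat

open Set Topology Filter
open scoped Pointwise

set_option linter.unusedSectionVars false
set_option linter.unusedVariables false

theorem Rec.mono {G : Type*} [Group G] [TopologicalSpace G] {B B' : Set G} (h : Rec B)
    (hBB : B ⊆ B') : Rec B' := by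
  intro θ hθ hinv x hx
  exact h θ hθ (fun b hb g => hinv b (hBB hb) g) x hx

section Core
variable {X : Type*} [MetricSpace X] {G : Type*} [Group G] [TopologicalSpace G]
  [IsTopologicalGroup G] {n : ℕ} {A : Subgroup (X ≃ᵢ X)}

/-- the embedding of `G` -/
noncomputable def iG (G : Type*) [Group G] (n : ℕ) (A : Subgroup (X ≃ᵢ X)) (c : G) :
    G × (EE n ≃ᵢ EE n) × A := (c, 1, 1)

theorem iG_one : iG G n A (1 : G) = 1 := rfl

theorem iG_mul (c d : G) : iG G n A (c * d) = iG G n A c * iG G n A d := by simp [iG]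

theorem iG_inv (c : G) : iG G n A c⁻¹ = (iG G n A c)⁻¹ := by simp [iG]

theorem iG_comm {c : G} {m : G × (EE n ≃ᵢ EE n) × A} (h : m.1 * c = c * m.1) :
    m * iG G n A c = iG G n A c * m := by
  refine Prod.ext ?_ (Prod.ext ?_ ?_)
  · simpa [iG] using h
  · simp [iG]
  · simp [iG]

/-- key dichotomy: with the decomposition `G = H₀ C` the factor `C` is trivial -/
theorem C_eq_bot [ProperSpace X] (hX : IsCAT0 X) (hA : IsClosed (A : Set (X ≃ᵢ X)))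
    (hstab : ∀ x : X, ∃ U ∈ 𝓝 (1 : X ≃ᵢ X), ∀ f ∈ U, f ∈ A → f x = x)
    (hco : ActsCocompactly A) (hmin : ActsMinimally A) [T2Space G]
    (hgen : CompactlyGen (⊤ : Subgroup G))
    (hcent : ∀ B : Set G, Cocompact B → ∀ z, (∀ b ∈ B, b * z = z * b) → z = 1)
    (Γ : Subgroup (G × (EE n ≃ᵢ EE n) × A)) (hΓ : Disc Γ)
    (hcoc : Cocompact (Γ : Set (G × (EE n ≃ᵢ EE n) × A))) (hirr : IrrProp Γ)
    (hinf : ¬ ((fun ℓ : G × (EE n ≃ᵢ EE n) × A => ℓ.2.2) '' (Γ : Set _)).Finite)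
    (H : Subgroup G) (hH : IsClosed (H : Set G)) (hΓH : ∀ γ ∈ Γ, γ.1 ∈ H)
    (hdense : (H : Set G) ⊆ closure (Prod.fst '' (Γ : Set (G × (EE n ≃ᵢ EE n) × A))))
    (H₀ C : Subgroup G) (hHH : H₀ ≤ H) (hopen : ∃ U ∈ 𝓝 (1 : G), ∀ h ∈ H, h ∈ U → h ∈ H₀)
    (hH₀ : IsClosed (H₀ : Set G)) (hH₀g : CompactlyGen H₀)
    (hcomm : ∀ h ∈ H₀, ∀ c ∈ C, h * c = c * h) (hprod : ∀ g : G, ∃ h ∈ H₀, ∃ c ∈ C, g = h * c)
    (hfin : Cocompact (H₀ : Set G) → C = ⊥) : C = ⊥ := by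
  classical
  -- the centre is trivial
  have hcenter : ∀ z : G, (∀ g, g * z = z * g) → z = 1 := fun z hz =>
    hcent univ ⟨{1}, isCompact_singleton, fun g => ⟨g, trivial, 1, rfl, by simp⟩⟩ z
      (fun b _ => hz b)
  have hHC : ∀ g ∈ H₀, (∀ h ∈ H₀, h * g = g * h) → g = 1 := by
    intro g hg h
    apply hcenter
    intro x
    obtain ⟨a, ha, c, hc, rfl⟩ := hprod x
    calc a * c * g = a * (g * c) := by rw [mul_assoc, ← hcomm g hg c hc]
      _ = g * (a * c) := by rw [← mul_assoc, h a ha, mul_assoc]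
  set M := Subgroup.comap (MonoidHom.fst G ((EE n ≃ᵢ EE n) × A)) H₀ with hM
  set MH := Subgroup.comap (MonoidHom.fst G ((EE n ≃ᵢ EE n) × A)) H with hMH
  have hΓMH : Γ ≤ MH := fun γ hγ => hΓH γ hγ
  have hMHcl : IsClosed (MH : Set (G × (EE n ≃ᵢ EE n) × A)) := hH.preimage continuous_fst
  have hMcl : IsClosed (M : Set (G × (EE n ≃ᵢ EE n) × A)) := hH₀.preimage continuous_fst
  have hMle : M ≤ MH := fun m hm => hHH hm
  have hMopen : ∃ U ∈ 𝓝 (1 : G × (EE n ≃ᵢ EE n) × A), ∀ m ∈ MH, m ∈ U → m ∈ M := by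
    obtain ⟨U, hU, h⟩ := hopen
    exact ⟨Prod.fst ⁻¹' U, continuous_fst.continuousAt (by simpa using hU),
      fun m hm hmU => h _ hm hmU⟩
  set N := Γ ⊓ M with hN
  have hNcoc : CocompactIn (N : Set (G × (EE n ≃ᵢ EE n) × A)) M :=
    cocompactIn_inter hΓMH (cocompactIn_of_closed hΓMH hMHcl hcoc) hMle hMopen hMcl
  have hNd : Disc N := hΓ.mono inf_le_left
  obtain ⟨F, hF, hFN, hcl⟩ := fg_of_cocompactIn hNd (show N ≤ M from inf_le_right) hNcoc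
    (compactlyGen_L hX hA hco hH₀g)
  -- centraliser of `N` in `H₀`
  have hcentN : ∀ g ∈ H₀, (∀ ν ∈ N, ν.1 * g = g * ν.1) → g = 1 := by
    intro g hg hcg
    apply hHC g hg
    intro h hh
    have hclosed : IsClosed {x : G | x * g = g * x} :=
      isClosed_eq (continuous_mul_const g) (continuous_const_mul g)
    have hsub : Prod.fst '' (N : Set (G × (EE n ≃ᵢ EE n) × A)) ⊆ {x : G | x * g = g * x} := by
      rintro _ ⟨ν, hν, rfl⟩
      exact hcg ν hν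
    have hmem : h ∈ closure (Prod.fst '' (N : Set (G × (EE n ≃ᵢ EE n) × A))) := by
      rw [mem_closure_iff_nhds]
      intro V hV
      obtain ⟨U, hU, hUH⟩ := hopen
      have h1 : {x : G | h⁻¹ * x ∈ U} ∈ 𝓝 h := by
        have hc : Continuous (fun x : G => h⁻¹ * x) := continuous_const_mul _
        exact hc.continuousAt (by simpa using hU)
      obtain ⟨_, ⟨hxV, hxU⟩, ⟨γ, hγ, rfl⟩⟩ :=
        mem_closure_iff_nhds.1 (hdense (hHH hh)) _ (inter_mem hV h1)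
      refine ⟨γ.1, hxV, ⟨γ, ⟨hγ, ?_⟩, rfl⟩⟩
      have h2 : h⁻¹ * γ.1 ∈ H₀ := hUH _ (H.mul_mem (H.inv_mem (hHH hh)) (hΓH γ hγ)) hxU
      have := H₀.mul_mem hh h2
      change γ.1 ∈ H₀
      simpa using this
    exact hclosed.closure_subset_iff.2 hsub hmem
  -- `N` is normalised by `Γ`
  have hnorm : ∀ γ ∈ Γ, ∀ ν ∈ N, γ * ν * γ⁻¹ ∈ N := by
    intro γ hγ ν hν
    refine ⟨Γ.mul_mem (Γ.mul_mem hγ hν.1) (Γ.inv_mem hγ), ?_⟩
    change γ.1 * ν.1 * γ.1⁻¹ ∈ H₀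
    obtain ⟨h, hh, c, hc, he⟩ := hprod γ.1
    have hν1 : ν.1 ∈ H₀ := hν.2
    rw [he]
    have : h * c * ν.1 * (h * c)⁻¹ = h * ν.1 * h⁻¹ := by
      calc h * c * ν.1 * (h * c)⁻¹ = h * (c * ν.1) * c⁻¹ * h⁻¹ := by group
        _ = h * (ν.1 * c) * c⁻¹ * h⁻¹ := by rw [← hcomm ν.1 hν1 c hc]
        _ = _ := by group
    rw [this]
    exact H₀.mul_mem (H₀.mul_mem hh hν1) (H₀.inv_mem hh)
  obtain ⟨R, hR⟩ := translations_cocompact hX hmin hstab H₀ N hNd (fun ν hν => hν.2) hNcoc F hF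
    hcl hcentN
  -- the fixed space of `N` is trivial
  have hfix : ∀ w : EE n, (∀ ν ∈ N, lin ν.2.1 w = w) → w = 0 := by
    intro w hw
    by_contra hw0
    obtain ⟨w', hw', htN, hw'0⟩ : ∃ w' : EE n, (∀ ν ∈ N, lin ν.2.1 w' = w') ∧ TT G A w' ∈ N ∧
        w' ≠ 0 := by
      obtain ⟨c, hc⟩ := exists_nat_gt (R / ‖w‖)
      have hwpos : 0 < ‖w‖ := norm_pos_iff.2 hw0
      obtain ⟨w', h1, h2, h3⟩ := hR ((c : ℝ) • w) (fun ν hν => by rw [map_smul, hw ν hν])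
      refine ⟨w', h1, h2, ?_⟩
      rintro rfl
      rw [sub_zero, norm_smul, Real.norm_natCast] at h3
      rw [div_lt_iff₀ hwpos] at hc
      linarith
    apply hw'0
    -- translations conjugate to `TT w'`
    have hconj : ∀ γ ∈ Γ, TT G A (lin γ.2.1 w') ∈ N := by
      intro γ hγ
      have h1 := hnorm γ hγ _ htN
      have h2 : γ * TT G A w' * γ⁻¹ = TT G A (lin γ.2.1 w') := by
        refine Prod.ext ?_ (Prod.ext ?_ ?_)
        · simp [TT]
        · simpa [TT] using conj_trans γ.2.1 w'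
        · simp [TT]
      rw [← h2]; exact h1
    let O : Set (EE n) := {u | ∃ γ ∈ Γ, lin γ.2.1 w' = u}
    have hO : O.Finite := by
      have hK : IsCompact (TT G A '' (Metric.closedBall (0 : EE n) ‖w'‖)) :=
        (isCompact_closedBall _ _).image continuous_TT
      have hfin := hNd.finite_inter hK
      refine (hfin.preimage (TT_injective.injOn)).subset ?_
      rintro u ⟨γ, hγ, rfl⟩
      refine ⟨hconj γ hγ, _, ?_, rfl⟩
      rw [mem_closedBall_zero_iff, LinearIsometryEquiv.norm_map]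
    let rep : EE n → G × (EE n ≃ᵢ EE n) × A :=
      fun u => if h : ∃ γ ∈ Γ, lin γ.2.1 w' = u then h.choose else 1
    have hrep : ∀ u, (∃ γ ∈ Γ, lin γ.2.1 w' = u) → rep u ∈ Γ ∧ lin (rep u).2.1 w' = u := by
      intro u h
      simp only [rep, dif_pos h]
      exact h.choose_spec
    let Γ₁ : Subgroup (G × (EE n ≃ᵢ EE n) × A) :=
      { carrier := {γ | γ ∈ Γ ∧ lin γ.2.1 w' = w'}
        one_mem' := ⟨Γ.one_mem, lin_one _⟩
        mul_mem' := by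
          rintro a b ⟨ha, ha'⟩ ⟨hb, hb'⟩
          refine ⟨Γ.mul_mem ha hb, ?_⟩
          rw [Prod.snd_mul, Prod.fst_mul, lin_mul, hb', ha']
        inv_mem' := by
          rintro a ⟨ha, ha'⟩
          exact ⟨Γ.inv_mem ha, lin_inv_eq ha'⟩ }
    refine fix_eq_zero hX hA hstab hco hmin hgen hcent Γ hΓ hcoc hirr hinf Γ₁ (fun γ hγ => hγ.1)
      ((fun u => (rep u)⁻¹) '' O) (hO.image _) ?_ w' (fun γ hγ => hγ.2)
    intro γ hγ
    have hu : ∃ γ' ∈ Γ, lin γ'.2.1 w' = lin (γ⁻¹).2.1 w' := ⟨γ⁻¹, Γ.inv_mem hγ, rfl⟩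
    obtain ⟨h1, h2⟩ := hrep _ hu
    refine ⟨γ * rep (lin (γ⁻¹).2.1 w'), ⟨Γ.mul_mem hγ h1, ?_⟩, (rep (lin (γ⁻¹).2.1 w'))⁻¹,
      ⟨_, hu, rfl⟩, by group⟩
    rw [Prod.snd_mul, Prod.fst_mul, lin_mul, h2, ← lin_mul, Prod.snd_inv, Prod.fst_inv,
      mul_inv_cancel, lin_one]
  -- the discrete group generated by the projections
  let Pi : Subgroup (G × (EE n ≃ᵢ EE n) × A) :=
    { carrier := {m | m.1 ∈ H₀ ∧ ∃ c ∈ C, iG G n A c * m ∈ Γ}
      one_mem' := ⟨H₀.one_mem, 1, C.one_mem, by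
        rw [iG_one, one_mul]; exact Γ.one_mem⟩
      mul_mem' := by
        rintro a b ⟨ha, c, hc, hca⟩ ⟨hb, d, hd, hdb⟩
        refine ⟨H₀.mul_mem ha hb, c * d, C.mul_mem hc hd, ?_⟩
        have h1 : a * iG G n A d = iG G n A d * a := iG_comm (hcomm _ ha _ hd)
        have : iG G n A (c * d) * (a * b) = iG G n A c * a * (iG G n A d * b) := by
          rw [iG_mul]
          calc iG G n A c * iG G n A d * (a * b) = iG G n A c * (iG G n A d * a) * b := by group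
            _ = iG G n A c * (a * iG G n A d) * b := by rw [h1]
            _ = _ := by group
        rw [this]; exact Γ.mul_mem hca hdb
      inv_mem' := by
        rintro a ⟨ha, c, hc, hca⟩
        refine ⟨H₀.inv_mem ha, c⁻¹, C.inv_mem hc, ?_⟩
        have h1 : a * iG G n A c = iG G n A c * a := iG_comm (hcomm _ ha _ hc)
        have : iG G n A c⁻¹ * a⁻¹ = (iG G n A c * a)⁻¹ := by
          rw [iG_inv, ← h1]; group
        rw [this]; exact Γ.inv_mem hca }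
  have hNPi : N ≤ Pi := fun ν hν => ⟨hν.2, 1, C.one_mem, by
    rw [iG_one, one_mul]; exact hν.1⟩
  have hPid : Disc Pi := by
    obtain ⟨U₁, hU₁, hcen⟩ := centralizer_near_one hX hmin hstab H₀ N hNcoc hcentN
    obtain ⟨U₀, hU₀, hNU⟩ := hNd
    have hnh : ∀ f ∈ F, {m : G × (EE n ≃ᵢ EE n) × A | f * m * f⁻¹ * m⁻¹ ∈ U₀} ∈
        𝓝 (1 : G × (EE n ≃ᵢ EE n) × A) := by
      intro f _
      have hc : Continuous (fun m : G × (EE n ≃ᵢ EE n) × A => f * m * f⁻¹ * m⁻¹) := by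
        fun_prop
      exact hc.continuousAt (by simpa using hU₀)
    refine ⟨U₁ ∩ ⋂ f ∈ F, {m : G × (EE n ≃ᵢ EE n) × A | f * m * f⁻¹ * m⁻¹ ∈ U₀},
      inter_mem hU₁ ((biInter_mem hF).2 hnh), ?_⟩
    rintro m ⟨hm1, c, hc, hcm⟩ ⟨hmU₁, hmU⟩
    have hcomF : ∀ f ∈ F, f * m = m * f := by
      intro f hf
      have hfN : f ∈ N := hFN hf
      have hfH : f.1 ∈ H₀ := hfN.2
      have h1 : f * m * f⁻¹ * m⁻¹ ∈ U₀ := mem_iInter₂.1 hmU f hf
      have h2 : m * f⁻¹ * m⁻¹ = (iG G n A c * m) * f⁻¹ * (iG G n A c * m)⁻¹ := by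
        have hx : (m * f⁻¹ * m⁻¹).1 ∈ H₀ :=
          H₀.mul_mem (H₀.mul_mem hm1 (H₀.inv_mem hfH)) (H₀.inv_mem hm1)
        have h3 := iG_comm (n := n) (A := A) (m := m * f⁻¹ * m⁻¹) (hcomm _ hx _ hc)
        calc m * f⁻¹ * m⁻¹ = (m * f⁻¹ * m⁻¹ * iG G n A c) * (iG G n A c)⁻¹ := by group
          _ = (iG G n A c * (m * f⁻¹ * m⁻¹)) * (iG G n A c)⁻¹ := by rw [h3]
          _ = _ := by group
      have h4 : m * f⁻¹ * m⁻¹ ∈ N := by
        rw [h2]; exact hnorm _ hcm _ (N.inv_mem hfN)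
      have h5 : f * m * f⁻¹ * m⁻¹ ∈ N := by
        have := N.mul_mem hfN h4
        have e : f * (m * f⁻¹ * m⁻¹) = f * m * f⁻¹ * m⁻¹ := by group
        rwa [e] at this
      have h6 := hNU _ h5 h1
      rw [mul_inv_eq_one, mul_inv_eq_iff_eq_mul] at h6
      exact h6
    have hle : Subgroup.closure F ≤ Subgroup.centralizer {m} := by
      rw [Subgroup.closure_le]
      intro f hf
      rw [SetLike.mem_coe, Subgroup.mem_centralizer_singleton_iff]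
      exact hcomF f hf
    have hcomN : ∀ μ ∈ N, μ * m = m * μ := by
      intro μ hμ
      have hμF : μ ∈ Subgroup.closure F := by rw [hcl]; exact hμ
      exact Subgroup.mem_centralizer_singleton_iff.1 (hle hμF)
    obtain ⟨w, hw, rfl⟩ := hcen m hmU₁ hm1 hcomN
    rw [hfix w hw, TT_zero]
  obtain ⟨QM, hQM, hQMM, hcovM⟩ := hNcoc
  have hΦ := hPid.finite_inter hQM
  let ch : G × (EE n ≃ᵢ EE n) × A → G := fun m => if h : ∃ c ∈ C, iG G n A c * m ∈ Γ then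
    h.choose else 1
  have hch : ∀ m, (∃ c ∈ C, iG G n A c * m ∈ Γ) → ch m ∈ C ∧ iG G n A (ch m) * m ∈ Γ := by
    intro m h
    simp only [ch, dif_pos h]
    exact h.choose_spec
  let S : Set (G × (EE n ≃ᵢ EE n) × A) := (fun m => iG G n A (ch m) * m) '' ((Pi : Set _) ∩ QM)
  have hS : S.Finite := hΦ.image _
  let ΓC : Subgroup (G × (EE n ≃ᵢ EE n) × A) := Γ ⊓
    { carrier := {ℓ | ℓ.1 ∈ C ∧ ℓ.2 = 1}
      one_mem' := ⟨C.one_mem, rfl⟩
      mul_mem' := by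
        rintro a b ⟨ha, ha'⟩ ⟨hb, hb'⟩
        exact ⟨C.mul_mem ha hb, by rw [Prod.snd_mul, ha', hb', one_mul]⟩
      inv_mem' := by
        rintro a ⟨ha, ha'⟩
        exact ⟨C.inv_mem ha, by rw [Prod.snd_inv, ha', inv_one]⟩ }
  have hdecomp : ∀ γ ∈ Γ, ∃ a ∈ N, ∃ c ∈ ΓC, ∃ s ∈ S, γ = a * c * s := by
    intro γ hγ
    obtain ⟨h, hh, c, hc, he⟩ := hprod γ.1
    let m : G × (EE n ≃ᵢ EE n) × A := (h, γ.2)
    have hm : iG G n A c * m = γ := by
      refine Prod.ext ?_ ?_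
      · change c * h = γ.1
        rw [he, hcomm h hh c hc]
      · change 1 * γ.2 = γ.2
        rw [one_mul]
    have hmPi : m ∈ Pi := ⟨hh, c, hc, by rw [hm]; exact hγ⟩
    obtain ⟨ν, hν, q, hq, hνq⟩ := hcovM m hh
    have hqPi : q ∈ Pi := by
      have : q = ν⁻¹ * m := by rw [hνq]; group
      rw [this]
      exact Pi.mul_mem (Pi.inv_mem (hNPi hν)) hmPi
    obtain ⟨hc1, hc2⟩ := hch q hqPi.2
    set γq := iG G n A (ch q) * q with hγq
    have hν1 : ν.1 ∈ H₀ := (show ν ∈ N from hν).2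
    -- `γ = ν * (c * (ch q)⁻¹, 1, 1) * γq`
    have key : γ = ν * iG G n A (c * (ch q)⁻¹) * γq := by
      have h1 : ν * iG G n A c = iG G n A c * ν := iG_comm (hcomm _ hν1 _ hc)
      rw [← hm, hνq, hγq, iG_mul, iG_inv]
      calc iG G n A c * (ν * q) = (iG G n A c * ν) * q := by group
        _ = (ν * iG G n A c) * q := by rw [h1]
        _ = _ := by group
    have hz : iG G n A (c * (ch q)⁻¹) ∈ Γ := by
      have : iG G n A (c * (ch q)⁻¹) = ν⁻¹ * γ * γq⁻¹ := by rw [key]; group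
      rw [this]
      exact Γ.mul_mem (Γ.mul_mem (Γ.inv_mem (show ν ∈ N from hν).1) hγ) (Γ.inv_mem hc2)
    exact ⟨ν, hν, _, ⟨hz, C.mul_mem hc (C.inv_mem hc1), rfl⟩, γq, ⟨q, ⟨hqPi, hq⟩, rfl⟩, key⟩
  have hNC : N ⊓ ΓC = ⊥ := by
    rw [eq_bot_iff]
    rintro x ⟨hx1, hx2, hx3, hx4⟩
    have h1 : x.1 ∈ H₀ := hx1.2
    have h2 : x.1 = 1 := by
      apply hHC _ h1
      intro h hh
      exact hcomm h hh _ hx3
    rw [Subgroup.mem_bot]
    exact Prod.ext h2 hx4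
  have hcomNC : ∀ a ∈ N, ∀ c ∈ ΓC, a * c = c * a := by
    intro a ha c hc
    have hc' : c = iG G n A c.1 := Prod.ext rfl hc.2.2
    rw [hc']
    exact iG_comm (hcomm _ ha.2 _ hc.2.1)
  rcases hirr N ΓC inf_le_left inf_le_left hcomNC hNC ⟨S, hS, hdecomp⟩ with hfinN | hfinC
  · exfalso
    apply hinf
    refine ((hfinN.image (fun ℓ : G × (EE n ≃ᵢ EE n) × A => ℓ.2.2)).mul
      (hS.image (fun ℓ : G × (EE n ≃ᵢ EE n) × A => ℓ.2.2))).subset ?_
    rintro _ ⟨γ, hγ, rfl⟩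
    obtain ⟨a, ha, c, hc, s, hs, rfl⟩ := hdecomp γ hγ
    refine ⟨a.2.2, ⟨a, ha, rfl⟩, s.2.2, ⟨s, hs, rfl⟩, ?_⟩
    have : c.2 = 1 := hc.2.2
    simp [Prod.snd_mul, this]
  · apply hfin
    obtain ⟨Q, hQ, hcov⟩ := hcoc
    refine ⟨Prod.fst '' ((ΓC : Set (G × (EE n ≃ᵢ EE n) × A)) * S * Q),
      (((hfinC.mul hS).isCompact.mul hQ).image continuous_fst), fun g => ?_⟩
    obtain ⟨γ, hγ, q, hq, he⟩ := hcov (iG G n A g)
    obtain ⟨a, ha, c, hc, s, hs, rfl⟩ := hdecomp γ hγ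
    refine ⟨a.1, (show a ∈ N from ha).2, (c * s * q).1,
      ⟨c * s * q, Set.mul_mem_mul (Set.mul_mem_mul hc hs) hq, rfl⟩, ?_⟩
    have := congrArg Prod.fst he
    change g = _ at this
    rw [this]
    simp [mul_assoc]

theorem lattice_core [ProperSpace X] (hX : IsCAT0 X) (hA : IsClosed (A : Set (X ≃ᵢ X)))
    (hstab : ∀ x : X, ∃ U ∈ 𝓝 (1 : X ≃ᵢ X), ∀ f ∈ U, f ∈ A → f x = x)
    (hco : ActsCocompactly A) (hmin : ActsMinimally A) (hG : SSI G)
    (Γ : Subgroup (G × (EE n ≃ᵢ EE n) × A)) (hΓ : Disc Γ)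
    (hcoc : Cocompact (Γ : Set (G × (EE n ≃ᵢ EE n) × A))) (hirr : IrrProp Γ)
    (hinf : ¬ ((fun ℓ : G × (EE n ≃ᵢ EE n) × A => ℓ.2.2) '' (Γ : Set _)).Finite)
    (hrec : Rec (range (prG Γ))) :
    Dense (range (prG Γ)) ∧ ∀ w : EE n, (∀ γ : Γ, lin (prV Γ γ) w = w) → w = 0 := by
  have hLC := hG.lc
  have hSC := hG.sc
  have hT2 := hG.t2
  have hgen := hG.gen
  have hcent := hG.cent
  refine ⟨?_, ?_⟩
  · set H := (prG Γ).range.topologicalClosure with hH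
    have hHcl : IsClosed (H : Set G) := Subgroup.isClosed_topologicalClosure _
    have hHc : (H : Set G) = closure (range (prG Γ)) := rfl
    obtain ⟨H₀, C, h1, h2, h3, h4, h5, h6, h7, h8⟩ := hG.struct H hHcl
      (hrec.mono subset_closure)
    have hr : range (prG Γ) = Prod.fst '' (Γ : Set (G × (EE n ≃ᵢ EE n) × A)) := by
      ext g
      constructor
      · rintro ⟨γ, rfl⟩; exact ⟨γ, γ.2, rfl⟩
      · rintro ⟨γ, hγ, rfl⟩; exact ⟨⟨γ, hγ⟩, rfl⟩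
    have hC := C_eq_bot hX hA hstab hco hmin hgen hcent Γ hΓ hcoc hirr hinf H hHcl
      (fun γ hγ => subset_closure ⟨⟨γ, hγ⟩, rfl⟩) (by rw [hHc, hr]) H₀ C h1 h2 h3 h4 h6 h7 h8
    intro g
    obtain ⟨h, hh, c, hc, rfl⟩ := h7 g
    rw [hC, Subgroup.mem_bot] at hc
    rw [hc, mul_one]
    exact h1 hh
  · intro w hw
    exact fix_eq_zero hX hA hstab hco hmin hgen hcent Γ hΓ hcoc hirr hinf Γ le_rfl {1}
      (finite_singleton 1) (fun γ hγ => ⟨γ, hγ, 1, rfl, by simp⟩) w (fun γ hγ => hw ⟨γ, hγ⟩)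

end Core

end Pool.Agent.Lat
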