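import Pool.Agent.Lib_helper41.Lat.Core

/-!
# Block G, part 5: no fixed vectors for irreducible lattices
-/

namespace Pool.Agent.Lat

open Set Topology Filter
open scoped Pointwise

set_option linter.unusedSectionVars false
set_option linter.unusedVariables false

/-- irreducibility, as used in the proofs -/
def IrrProp {L : Type*} [Group L] (Γ : Subgroup L) : Prop :=
  ∀ N C : Subgroup L, N ≤ Γ → C ≤ Γ → (∀ a ∈ N, ∀ c ∈ C, a * c = c * a) → N ⊓ C = ⊥ →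
    (∃ S : Set L, S.Finite ∧ ∀ γ ∈ Γ, ∃ a ∈ N, ∃ c ∈ C, ∃ s ∈ S, γ = a * c * s) →
    (N : Set L).Finite ∨ (C : Set L).Finite

theorem euclid_cocompact (n : ℕ) : ActsCocompactly (⊤ : Subgroup (EE n ≃ᵢ EE n)) := by
  refine ⟨{0}, isCompact_singleton, fun x => ⟨trans (-x), trivial, ?_⟩⟩
  simp [trans_apply]

theorem compactlyGen_euclid (n : ℕ) : CompactlyGen (⊤ : Subgroup (EE n ≃ᵢ EE n)) :=
  compactlyGen_of_top (compactlyGen_isom (euclid_isCAT0 n) ⊤ isClosed_univ (euclid_cocompact n))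

section Core
variable {X : Type*} [MetricSpace X] {G : Type*} [Group G] [TopologicalSpace G]
  [IsTopologicalGroup G] {n : ℕ} {A : Subgroup (X ≃ᵢ X)}

theorem compactlyGen_L [ProperSpace X] (hX : IsCAT0 X) (hA : IsClosed (A : Set (X ≃ᵢ X)))
    (hco : ActsCocompactly A) {H₀ : Subgroup G} (hH : CompactlyGen H₀) :
    CompactlyGen (Subgroup.comap (MonoidHom.fst G ((EE n ≃ᵢ EE n) × A)) H₀) :=
  compactlyGen_comap hH (compactlyGen_prod_top (compactlyGen_euclid n)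
    (compactlyGen_isom hX A hA hco))

/-- the translation homomorphism on the fixed space -/
theorem exists_psi (N : Subgroup (G × (EE n ≃ᵢ EE n) × A)) :
    ∃ ψ : N →* Multiplicative (EE n), ∀ w ∈ fixSub N, ∀ h : TT G A w ∈ N,
      ψ ⟨TT G A w, h⟩ = Multiplicative.ofAdd w := by
  set W := fixSub N with hW
  let P := W.starProjection
  have hPid : ∀ w ∈ W, P w = w := fun w hw => Submodule.starProjection_eq_self_iff.2 hw
  have good_N : ∀ ν ∈ N, ∀ w ∈ W, lin ν.2.1 w = w := fun ν hν w hw => hw ν hν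
  have hPlin : ∀ a ∈ N, ∀ u, P (lin a.2.1 u) = P u := by
    intro a ha u
    have h : lin a.2.1 u - u ∈ Wᗮ := by
      rw [Submodule.mem_orthogonal]
      intro w hw
      rw [inner_sub_right]
      nth_rewrite 1 [← good_N a ha w hw]
      rw [LinearIsometryEquiv.inner_map_map, sub_self]
    have h2 : P (lin a.2.1 u - u) = 0 := (Submodule.starProjection_apply_eq_zero_iff W).2 h
    rw [map_sub] at h2
    exact sub_eq_zero.1 h2
  refine ⟨MonoidHom.mk' (fun ν => Multiplicative.ofAdd (P ((ν : G × (EE n ≃ᵢ EE n) × A).2.1 0)))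
    ?_, ?_⟩
  · intro a b
    rw [← ofAdd_add]
    congr 1
    have : ((a * b : N) : G × (EE n ≃ᵢ EE n) × A).2.1 0 =
        (a : G × (EE n ≃ᵢ EE n) × A).2.1 0 + lin (a : G × (EE n ≃ᵢ EE n) × A).2.1
          ((b : G × (EE n ≃ᵢ EE n) × A).2.1 0) := by
      rw [Subgroup.coe_mul, Prod.snd_mul, Prod.fst_mul, IsometryEquiv.mul_apply]
      conv_lhs => rw [← zero_add ((b : G × (EE n ≃ᵢ EE n) × A).2.1 0)]
      rw [apply_add]
    rw [this, map_add, hPlin _ a.2]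
  · intro w hw h
    change Multiplicative.ofAdd (P (trans w 0)) = _
    rw [trans_apply, zero_add, hPid w hw]

theorem fix_eq_zero [ProperSpace X] (hX : IsCAT0 X) (hA : IsClosed (A : Set (X ≃ᵢ X)))
    (hstab : ∀ x : X, ∃ U ∈ 𝓝 (1 : X ≃ᵢ X), ∀ f ∈ U, f ∈ A → f x = x)
    (hco : ActsCocompactly A) (hmin : ActsMinimally A)
    (hgen : CompactlyGen (⊤ : Subgroup G))
    (hcent : ∀ B : Set G, Cocompact B → ∀ z, (∀ b ∈ B, b * z = z * b) → z = 1)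
    (Γ : Subgroup (G × (EE n ≃ᵢ EE n) × A)) (hΓ : Disc Γ)
    (hcoc : Cocompact (Γ : Set (G × (EE n ≃ᵢ EE n) × A))) (hirr : IrrProp Γ)
    (hinf : ¬ ((fun ℓ : G × (EE n ≃ᵢ EE n) × A => ℓ.2.2) '' (Γ : Set _)).Finite)
    (Γ₁ : Subgroup (G × (EE n ≃ᵢ EE n) × A)) (hle : Γ₁ ≤ Γ)
    (S₁ : Set (G × (EE n ≃ᵢ EE n) × A)) (hS₁ : S₁.Finite)
    (hfi : ∀ γ ∈ Γ, ∃ γ₁ ∈ Γ₁, ∃ s ∈ S₁, γ = γ₁ * s)
    (w : EE n) (hw : ∀ γ ∈ Γ₁, lin γ.2.1 w = w) : w = 0 := by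
  by_contra hw0
  have hΓ₁ : Disc Γ₁ := hΓ.mono hle
  obtain ⟨Q, hQ, hcov⟩ := hcoc
  have hcoc₁ : CocompactIn (Γ₁ : Set (G × (EE n ≃ᵢ EE n) × A))
      (Subgroup.comap (MonoidHom.fst G ((EE n ≃ᵢ EE n) × A)) ⊤) := by
    refine ⟨S₁ * Q, hS₁.isCompact.mul hQ, fun _ _ => trivial, fun g _ => ?_⟩
    obtain ⟨b, hb, q, hq, rfl⟩ := hcov g
    obtain ⟨γ₁, hγ₁, s, hs, rfl⟩ := hfi b hb
    exact ⟨γ₁, hγ₁, s * q, Set.mul_mem_mul hs hq, by rw [mul_assoc]⟩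
  obtain ⟨F, hF, hFN, hcl⟩ := fg_of_cocompactIn hΓ₁
    (show Γ₁ ≤ Subgroup.comap (MonoidHom.fst G ((EE n ≃ᵢ EE n) × A)) ⊤ from fun _ _ => trivial)
    hcoc₁ (compactlyGen_L hX hA hco hgen)
  have hcent₁ : ∀ g ∈ (⊤ : Subgroup G), (∀ ν ∈ Γ₁, ν.1 * g = g * ν.1) → g = 1 := by
    intro g _ hg
    have hB : Cocompact ((fun ℓ : G × (EE n ≃ᵢ EE n) × A => ℓ.1) '' (Γ₁ : Set _)) := by
      obtain ⟨Q', hQ', _, h'⟩ := hcoc₁
      refine ⟨Prod.fst '' Q', hQ'.image continuous_fst, fun x => ?_⟩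
      obtain ⟨b, hb, q, hq, he⟩ := h' (x, 1, 1) trivial
      exact ⟨_, ⟨b, hb, rfl⟩, _, ⟨q, hq, rfl⟩, congrArg Prod.fst he⟩
    refine hcent _ hB g ?_
    rintro _ ⟨ν, hν, rfl⟩
    exact hg ν hν
  obtain ⟨R, hR⟩ := translations_cocompact hX hmin hstab ⊤ Γ₁ hΓ₁ (fun _ _ => trivial) hcoc₁ F hF
    hcl hcent₁
  -- a nonzero pure translation
  obtain ⟨w', hw', htN, hw'0⟩ : ∃ w' : EE n, (∀ ν ∈ Γ₁, lin ν.2.1 w' = w') ∧ TT G A w' ∈ Γ₁ ∧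
      w' ≠ 0 := by
    obtain ⟨c, hc⟩ := exists_nat_gt (R / ‖w‖)
    have hwpos : 0 < ‖w‖ := norm_pos_iff.2 hw0
    obtain ⟨w', h1, h2, h3⟩ := hR ((c : ℝ) • w) (fun ν hν => by rw [map_smul, hw ν hν])
    refine ⟨w', h1, h2, ?_⟩
    rintro rfl
    rw [sub_zero, norm_smul, Real.norm_natCast] at h3
    rw [div_lt_iff₀ hwpos] at hc
    linarith
  set t := TT G A w' with ht
  have hcentt : ∀ γ ∈ Γ₁, γ * t = t * γ := fun γ hγ => commute_TT (hw' γ hγ)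
  obtain ⟨ψ, hψ⟩ := exists_psi Γ₁
  have hψt : ψ ⟨t, htN⟩ ≠ 1 := by
    rw [hψ w' hw' htN]
    intro h
    exact hw'0 (by simpa using h)
  have hfg : Group.FG Γ₁ := by
    rw [Group.fg_iff_subgroup_fg]
    exact (Subgroup.fg_iff _).2 ⟨F, hcl, hF⟩
  obtain ⟨η, hη⟩ := exists_hom_int hfg ψ ⟨t, htN⟩ hψt
  obtain ⟨N, hN1, hN2, ⟨S, hS, hSΓ, hS2⟩, hN3⟩ := central_split Γ₁ t htN hcentt η hη
  have hC : Subgroup.zpowers t ≤ Γ₁ := by
    rw [Subgroup.zpowers_le]; exact htN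
  have hfinN : (N : Set (G × (EE n ≃ᵢ EE n) × A)).Finite := by
    have h1 : ∀ a ∈ N, ∀ c ∈ Subgroup.zpowers t, a * c = c * a := by
      intro a ha c hc
      obtain ⟨j, rfl⟩ := Subgroup.mem_zpowers_iff.1 hc
      have : Commute a t := hcentt a (hN1 ha)
      exact this.zpow_right j
    have h2 : ∀ γ ∈ Γ, ∃ a ∈ N, ∃ c ∈ Subgroup.zpowers t, ∃ s ∈ S * S₁, γ = a * c * s := by
      intro γ hγ
      obtain ⟨γ₁, hγ₁, s, hs, rfl⟩ := hfi γ hγ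
      obtain ⟨a, ha, c, hc, s', hs', rfl⟩ := hS2 γ₁ hγ₁
      exact ⟨a, ha, c, hc, s' * s, Set.mul_mem_mul hs' hs, by group⟩
    rcases hirr N (Subgroup.zpowers t) (hN1.trans hle) (hC.trans hle) h1 hN2
      ⟨S * S₁, hS.mul hS₁, h2⟩ with h | h
    · exact h
    · exact absurd h hN3
  apply hinf
  refine (((hfinN.image (fun ℓ => ℓ.2.2)).mul ((hS.mul hS₁).image (fun ℓ => ℓ.2.2)))).subset ?_
  rintro _ ⟨γ, hγ, rfl⟩
  obtain ⟨γ₁, hγ₁, s, hs, rfl⟩ := hfi γ hγ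
  obtain ⟨a, ha, c, hc, s', hs', rfl⟩ := hS2 γ₁ hγ₁
  refine ⟨a.2.2, ⟨a, ha, rfl⟩, (s' * s).2.2, ⟨s' * s, Set.mul_mem_mul hs' hs, rfl⟩, ?_⟩
  have hc1 : c.2.2 = 1 := by
    obtain ⟨j, rfl⟩ := Subgroup.mem_zpowers_iff.1 hc
    simp [ht, TT]
  simp only [Prod.snd_mul, hc1, one_mul, mul_assoc]

end Core

end Pool.Agent.Lat
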