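import Pool.Agent.Lib_helper41.Lat.Iface

/-!
# Block I: topology of isometry groups
-/

namespace Pool.Agent.Lat

open Set Topology Filter

section Isom
variable (M : Type*) [MetricSpace M]

theorem isomInducing : IsInducing (fun f : M ≃ᵢ M => (f : M → M)) := by
  rw [isInducing_iff_nhds]
  intro f
  apply le_antisymm
  · have hc : Continuous (fun f : M ≃ᵢ M => (f : M → M)) := by
      have h1 : Continuous (fun f : M ≃ᵢ M => (⟨f, f.continuous⟩ : C(M, M))) :=
        continuous_induced_dom
      exact (continuous_coeFun (F := C(M, M))).comp h1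
    exact map_le_iff_le_comap.1 hc.continuousAt
  · have h2 : 𝓝 f = comap (fun f : M ≃ᵢ M => (⟨f, f.continuous⟩ : C(M, M)))
        (𝓝 (⟨f, f.continuous⟩ : C(M, M))) := nhds_induced _ _
    rw [h2, ← tendsto_iff_comap, ContinuousMap.tendsto_iff_forall_isCompact_tendstoUniformlyOn]
    intro K hK
    rw [Metric.tendstoUniformlyOn_iff]
    intro ε hε
    obtain ⟨t, htK, hfin, hcov⟩ := hK.finite_cover_balls (e := ε / 3) (by positivity)
    have hev : ∀ᶠ g in comap (fun f : M ≃ᵢ M => (f : M → M)) (𝓝 (f : M → M)),
        ∀ x ∈ t, dist (g x) (f x) < ε / 3 := by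
      rw [eventually_all_finite hfin]
      intro x _
      have : Tendsto (fun g : M ≃ᵢ M => g x)
          (comap (fun f : M ≃ᵢ M => (f : M → M)) (𝓝 (f : M → M))) (𝓝 (f x)) :=
        ((continuous_apply x).tendsto _).comp tendsto_comap
      exact (Metric.tendsto_nhds.1 this) (ε / 3) (by positivity)
    filter_upwards [hev] with g hg x hx
    obtain ⟨y, hy, hxy⟩ := mem_iUnion₂.1 (hcov hx)
    rw [Metric.mem_ball] at hxy
    have h3 := hg y hy
    change dist (f x) (g x) < ε
    calc dist (f x) (g x) ≤ dist (f x) (f y) + dist (f y) (g y) + dist (g y) (g x) :=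
          dist_triangle4 _ _ _ _
      _ = dist x y + dist (g y) (f y) + dist y x := by
          rw [f.dist_eq, g.dist_eq, dist_comm (f y)]
      _ < ε := by rw [dist_comm y x]; linarith

variable {M}

theorem tendsto_isom_iff {ι : Type*} {l : Filter ι} {F : ι → (M ≃ᵢ M)} {f : M ≃ᵢ M} :
    Tendsto F l (𝓝 f) ↔ ∀ x, Tendsto (fun i => F i x) l (𝓝 (f x)) := by
  rw [(isomInducing M).tendsto_nhds_iff, tendsto_pi_nhds]
  rfl

theorem continuous_isom_iff {Y : Type*} [TopologicalSpace Y] {F : Y → (M ≃ᵢ M)} :
    Continuous F ↔ ∀ x, Continuous (fun y => F y x) := by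
  rw [(isomInducing M).continuous_iff, continuous_pi_iff]
  rfl

variable (M)

theorem continuous_isom_eval : Continuous (fun p : (M ≃ᵢ M) × M => p.1 p.2) := by
  rw [continuous_iff_continuousAt]
  rintro ⟨f, x⟩
  rw [ContinuousAt, tendsto_iff_dist_tendsto_zero]
  have h1 : Tendsto (fun p : (M ≃ᵢ M) × M => dist p.2 x + dist (p.1 x) (f x)) (𝓝 (f, x)) (𝓝 0) := by
    have e1 : Tendsto (fun p : (M ≃ᵢ M) × M => dist p.2 x) (𝓝 (f, x)) (𝓝 0) := by
      have : Continuous (fun p : (M ≃ᵢ M) × M => dist p.2 x) := by fun_prop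
      simpa using this.tendsto (f, x)
    have e2 : Tendsto (fun p : (M ≃ᵢ M) × M => dist (p.1 x) (f x)) (𝓝 (f, x)) (𝓝 0) := by
      have hc : Continuous (fun g : M ≃ᵢ M => g x) := continuous_isom_iff.1 continuous_id x
      have : Continuous (fun p : (M ≃ᵢ M) × M => dist (p.1 x) (f x)) :=
        (hc.comp continuous_fst).dist continuous_const
      simpa using this.tendsto (f, x)
    simpa using e1.add e2
  refine squeeze_zero (fun _ => dist_nonneg) (fun p => ?_) h1
  calc dist (p.1 p.2) (f x) ≤ dist (p.1 p.2) (p.1 x) + dist (p.1 x) (f x) := dist_triangle _ _ _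
    _ = dist p.2 x + dist (p.1 x) (f x) := by rw [p.1.dist_eq]

instance isomGroup : IsTopologicalGroup (M ≃ᵢ M) where
  continuous_mul := by
    rw [continuous_isom_iff]
    intro x
    have hc : Continuous (fun g : M ≃ᵢ M => g x) := continuous_isom_iff.1 continuous_id x
    have h : Continuous (fun p : (M ≃ᵢ M) × (M ≃ᵢ M) => (p.1, p.2 x)) :=
      continuous_fst.prodMk (hc.comp continuous_snd)
    exact (continuous_isom_eval M).comp h
  continuous_inv := by
    rw [continuous_isom_iff]
    intro x
    rw [continuous_iff_continuousAt]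
    intro f
    rw [ContinuousAt, tendsto_iff_dist_tendsto_zero]
    have hc : Continuous (fun g : M ≃ᵢ M => g (f⁻¹ x)) := continuous_isom_iff.1 continuous_id _
    have h1 : Tendsto (fun g : M ≃ᵢ M => dist x (g (f⁻¹ x))) (𝓝 f) (𝓝 0) := by
      have : Continuous (fun g : M ≃ᵢ M => dist x (g (f⁻¹ x))) := continuous_const.dist hc
      simpa using this.tendsto f
    refine h1.congr (fun g => ?_)
    rw [← g.dist_eq (g⁻¹ x) (f⁻¹ x)]
    simp

instance isomT2 : T2Space (M ≃ᵢ M) := by
  refine T2Space.of_injective_continuous (f := fun f : M ≃ᵢ M => (f : M → M)) ?_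
    (isomInducing M).continuous
  intro f g h
  exact IsometryEquiv.ext (congrFun h)

/-- pairs of mutually inverse isometries, as a closed set in a product -/
theorem isClosedEmbedding_pair :
    IsClosedEmbedding (fun f : M ≃ᵢ M => ((f : M → M), ((f⁻¹ : M ≃ᵢ M) : M → M))) := by
  have hind : IsInducing (fun f : M ≃ᵢ M => ((f : M → M), ((f⁻¹ : M ≃ᵢ M) : M → M))) := by
    refine IsInducing.of_comp ?_ continuous_fst (isomInducing M)
    exact (isomInducing M).continuous.prodMk ((isomInducing M).continuous.comp continuous_inv)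
  refine ⟨⟨hind, ?_⟩, ?_⟩
  · intro f g h
    exact IsometryEquiv.ext (congrFun (Prod.ext_iff.1 h).1)
  · have hset : range (fun f : M ≃ᵢ M => ((f : M → M), ((f⁻¹ : M ≃ᵢ M) : M → M))) =
        ⋂ (x : M) (y : M), {p : (M → M) × (M → M) | dist (p.1 y) x = dist y (p.2 x)} := by
      ext p
      simp only [mem_range, mem_iInter, mem_ofPred_eq]
      constructor
      · rintro ⟨f, rfl⟩ x y
        simp only
        rw [← f.dist_eq y (f⁻¹ x)]
        simp
      · intro h
        have h1 : ∀ x, p.1 (p.2 x) = x := fun x => by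
          have := h x (p.2 x)
          rw [dist_self] at this
          exact dist_eq_zero.1 this
        have h2 : ∀ y, p.2 (p.1 y) = y := fun y => by
          have := h (p.1 y) y
          rw [dist_self] at this
          exact (dist_eq_zero.1 this.symm).symm
        refine ⟨⟨⟨p.1, p.2, h2, h1⟩, ?_⟩, ?_⟩
        · rw [isometry_iff_dist_eq]
          intro y y'
          change dist (p.1 y) (p.1 y') = dist y y'
          rw [h (p.1 y') y, h2]
        · rfl
    rw [hset]
    refine isClosed_iInter fun x => isClosed_iInter fun y => ?_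
    refine isClosed_eq ?_ ?_
    · exact ((continuous_apply y).comp continuous_fst).dist continuous_const
    · exact continuous_const.dist ((continuous_apply x).comp continuous_snd)

theorem isCompact_isom [ProperSpace M] (x : M) (r : ℝ) :
    IsCompact {f : M ≃ᵢ M | dist (f x) x ≤ r} := by
  let P : Set (M → M) := Set.pi univ (fun y => Metric.closedBall y (r + 2 * dist x y))
  have hP : IsCompact P := isCompact_univ_pi fun y => isCompact_closedBall _ _
  have hc := (isClosedEmbedding_pair M).isCompact_preimage (hP.prod hP)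
  refine hc.of_isClosed_subset ?_ ?_
  · have hcx : Continuous (fun g : M ≃ᵢ M => g x) := continuous_isom_iff.1 continuous_id x
    exact isClosed_le (hcx.dist continuous_const) continuous_const
  · intro f hf
    have key : ∀ g : M ≃ᵢ M, dist (g x) x ≤ r → (g : M → M) ∈ P := by
      intro g hg
      simp only [P, mem_univ_pi, Metric.mem_closedBall]
      intro y
      calc dist (g y) y ≤ dist (g y) (g x) + dist (g x) x + dist x y := dist_triangle4 _ _ _ _
        _ = dist x y + dist (g x) x + dist x y := by rw [g.dist_eq, dist_comm y x]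
        _ ≤ r + 2 * dist x y := by linarith
    refine ⟨key f hf, key f⁻¹ ?_⟩
    have : dist ((f⁻¹ : M ≃ᵢ M) x) x = dist (f x) x := by
      rw [← f.dist_eq (f⁻¹ x) x]; simp [dist_comm]
    rw [this]; exact hf

instance isomLC [ProperSpace M] : LocallyCompactSpace (M ≃ᵢ M) := by
  rcases isEmpty_or_nonempty M with hM | ⟨⟨x⟩⟩
  · have : Subsingleton (M ≃ᵢ M) := ⟨fun f g => IsometryEquiv.ext fun x => hM.elim x⟩
    have : DiscreteTopology (M ≃ᵢ M) := Subsingleton.discreteTopology
    infer_instance
  · refine (isCompact_isom M x 1).locallyCompactSpace_of_mem_nhds_of_group (x := 1) ?_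
    have hcx : Continuous (fun g : M ≃ᵢ M => g x) := continuous_isom_iff.1 continuous_id x
    have : Continuous (fun g : M ≃ᵢ M => dist (g x) x) := hcx.dist continuous_const
    have h1 : (fun g : M ≃ᵢ M => dist (g x) x) 1 < 1 := by simp
    filter_upwards [this.continuousAt.eventually (gt_mem_nhds h1)] with g hg
    exact hg.le

end Isom

end Pool.Agent.Lat
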