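import Pool.Agent.Lib_helper41.Lat.Group
import Pool.Agent.Lib_helper41.Lat.Isom

/-!
# Block G, part 2: compact generation, splitting
-/

namespace Pool.Agent.Lat

open Set Topology Filter
open scoped Pointwise

set_option linter.unusedSectionVars false
set_option linter.unusedVariables false

section Prod
variable {G P : Type*} [Group G] [TopologicalSpace G] [IsTopologicalGroup G]
  [Group P] [TopologicalSpace P] [IsTopologicalGroup P]

theorem compactlyGen_comap {H₀ : Subgroup G} (h1 : CompactlyGen H₀)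
    (h2 : CompactlyGen (⊤ : Subgroup P)) :
    CompactlyGen (Subgroup.comap (MonoidHom.fst G P) H₀) := by
  obtain ⟨Q₁, hQ₁, h1⟩ := h1
  obtain ⟨Q₂, hQ₂, h2⟩ := h2
  refine ⟨(Q₁ ×ˢ {1}) ∪ ({1} ×ˢ Q₂), ?_, ?_⟩
  · exact (hQ₁.prod isCompact_singleton).union (isCompact_singleton.prod hQ₂)
  · apply le_antisymm
    · rw [Subgroup.closure_le]
      rintro ⟨g, p⟩ (⟨hg, hp⟩ | ⟨hg, hp⟩)
      · change g ∈ H₀
        rw [← h1]; exact Subgroup.subset_closure hg
      · change g ∈ H₀
        have hg1 : g = 1 := hg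
        rw [hg1]; exact H₀.one_mem
    · rintro ⟨g, p⟩ hg
      change g ∈ H₀ at hg
      have e : ((g, p) : G × P) = (g, 1) * (1, p) := by simp
      rw [e]
      refine Subgroup.mul_mem _ ?_ ?_
      · rw [← h1] at hg
        have : Subgroup.closure Q₁ ≤ Subgroup.comap (MonoidHom.inl G P)
            (Subgroup.closure ((Q₁ ×ˢ {1}) ∪ ({1} ×ˢ Q₂))) := by
          rw [Subgroup.closure_le]
          intro x hx
          exact Subgroup.subset_closure (Or.inl ⟨hx, rfl⟩)
        exact this hg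
      · have hp : p ∈ Subgroup.closure Q₂ := by rw [h2]; trivial
        have : Subgroup.closure Q₂ ≤ Subgroup.comap (MonoidHom.inr G P)
            (Subgroup.closure ((Q₁ ×ˢ {1}) ∪ ({1} ×ˢ Q₂))) := by
          rw [Subgroup.closure_le]
          intro x hx
          exact Subgroup.subset_closure (Or.inr ⟨rfl, hx⟩)
        exact this hp

theorem compactlyGen_prod_top (h1 : CompactlyGen (⊤ : Subgroup G))
    (h2 : CompactlyGen (⊤ : Subgroup P)) : CompactlyGen (⊤ : Subgroup (G × P)) := by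
  have := compactlyGen_comap h1 h2
  simpa using this

end Prod

section Isom
variable {X : Type*} [MetricSpace X]

theorem dist_inv_mul_isom (c d : X ≃ᵢ X) (x : X) :
    dist ((c⁻¹ * d : X ≃ᵢ X) x) x = dist (d x) (c x) := by
  rw [← c.dist_eq ((c⁻¹ * d : X ≃ᵢ X) x) x]
  simp

/-- a closed group of isometries acting cocompactly on a proper geodesic space is compactly
generated -/
theorem compactlyGen_isom [ProperSpace X] (hX : IsCAT0 X) (A : Subgroup (X ≃ᵢ X))
    (hA : IsClosed (A : Set (X ≃ᵢ X))) (hco : ActsCocompactly A) :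
    CompactlyGen (⊤ : Subgroup A) := by
  obtain ⟨Q, hQ, hcov⟩ := hco
  obtain ⟨x₀⟩ := hX.nonempty
  obtain ⟨R, hR⟩ := hQ.isBounded.subset_closedBall x₀
  have hR0 : 0 ≤ R := by
    obtain ⟨a, _, ha⟩ := hcov x₀
    exact dist_nonneg.trans (Metric.mem_closedBall.1 (hR ha))
  let C : Set A := {a : A | dist ((a : X ≃ᵢ X) x₀) x₀ ≤ 2 * R + 1}
  have hC : IsCompact C := by
    have h1 := isCompact_isom X x₀ (2 * R + 1)
    have h2 : IsClosedEmbedding (Subtype.val : A → X ≃ᵢ X) := hA.isClosedEmbedding_subtypeVal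
    exact h2.isCompact_preimage h1
  have hCmem : ∀ c d : A, dist ((d : X ≃ᵢ X) x₀) ((c : X ≃ᵢ X) x₀) ≤ 2 * R + 1 →
      c ∈ Subgroup.closure C → d ∈ Subgroup.closure C := by
    intro c d h hc
    have h1 : c⁻¹ * d ∈ C := by
      have := dist_inv_mul_isom (c : X ≃ᵢ X) (d : X ≃ᵢ X) x₀
      change dist (((c : X ≃ᵢ X)⁻¹ * (d : X ≃ᵢ X) : X ≃ᵢ X) x₀) x₀ ≤ 2 * R + 1
      rw [this]; exact h
    have := Subgroup.mul_mem _ hc (Subgroup.subset_closure h1)
    simpa using this
  refine ⟨C, hC, ?_⟩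
  rw [eq_top_iff]
  rintro a -
  obtain ⟨g, hg0, hg1, hg⟩ := hX.geodesic x₀ ((a : X ≃ᵢ X) x₀)
  set D := dist x₀ ((a : X ≃ᵢ X) x₀) with hD
  obtain ⟨k, hk⟩ := exists_nat_gt D
  have hk0 : (0 : ℝ) < k := lt_of_le_of_lt dist_nonneg hk
  have hmem : ∀ i : ℕ, i ≤ k → (i / k : ℝ) ∈ Icc (0 : ℝ) 1 := by
    intro i hi
    refine ⟨by positivity, ?_⟩
    rw [div_le_one hk0]
    exact_mod_cast hi
  have hstep : ∀ i : ℕ, i ≤ k → ∃ c ∈ Subgroup.closure C,
      dist ((c : X ≃ᵢ X) x₀) (g (i / k)) ≤ R := by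
    intro i
    induction i with
    | zero =>
      intro _
      refine ⟨1, Subgroup.one_mem _, ?_⟩
      simp [hg0, hR0]
    | succ i ih =>
      intro hi
      obtain ⟨c, hc, hcd⟩ := ih (by omega)
      obtain ⟨b, hb, hbQ⟩ := hcov (g ((i + 1 : ℕ) / k))
      have hbd : dist (b (g ((i + 1 : ℕ) / k))) x₀ ≤ R := Metric.mem_closedBall.1 (hR hbQ)
      let c' : A := ⟨b, hb⟩⁻¹
      have hc'd : dist ((c' : X ≃ᵢ X) x₀) (g ((i + 1 : ℕ) / k)) ≤ R := by
        have e : ((c' : X ≃ᵢ X) x₀) = b⁻¹ x₀ := rfl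
        rw [e, ← b.dist_eq, IsometryEquiv.apply_inv_self, dist_comm]
        exact hbd
      refine ⟨c', hCmem c c' ?_ hc, hc'd⟩
      have h3 : dist (g ((i + 1 : ℕ) / k)) (g (i / k)) ≤ 1 := by
        rw [hg _ (hmem _ hi) _ (hmem _ (by omega))]
        have : ((i + 1 : ℕ) / k - i / k : ℝ) = 1 / k := by
          push_cast; ring
        rw [this, abs_of_pos (by positivity), one_div, inv_mul_le_iff₀ hk0]
        linarith
      calc dist ((c' : X ≃ᵢ X) x₀) ((c : X ≃ᵢ X) x₀)
          ≤ dist ((c' : X ≃ᵢ X) x₀) (g ((i + 1 : ℕ) / k)) + dist (g ((i + 1 : ℕ) / k)) (g (i / k))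
            + dist (g (i / k)) ((c : X ≃ᵢ X) x₀) := dist_triangle4 _ _ _ _
        _ ≤ R + 1 + R := by
            rw [dist_comm (g (i / k))]
            gcongr
        _ = 2 * R + 1 := by ring
  obtain ⟨c, hc, hcd⟩ := hstep k le_rfl
  refine hCmem c a ?_ hc
  rw [div_self hk0.ne', hg1, dist_comm] at hcd
  linarith

theorem compactlyGen_of_top {G : Type*} [Group G] [TopologicalSpace G] {A : Subgroup G}
    (h : CompactlyGen (⊤ : Subgroup A)) : CompactlyGen A := by
  obtain ⟨C, hC, h⟩ := h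
  refine ⟨(Subtype.val : A → G) '' C, hC.image continuous_subtype_val, ?_⟩
  have : Subgroup.map A.subtype (Subgroup.closure C) = Subgroup.closure (A.subtype '' C) :=
    MonoidHom.map_closure _ _
  rw [h] at this
  have e : (A.subtype '' C) = (Subtype.val : A → G) '' C := rfl
  rw [← e, ← this, ← MonoidHom.range_eq_map, Subgroup.range_subtype]

theorem dist_apply_le_of_generator {M : Type*} [MetricSpace M] (f : M ≃ᵢ M) (x y : M) :
    dist (f y) y ≤ dist (f x) x + 2 * dist x y := by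
  calc dist (f y) y ≤ dist (f y) (f x) + dist (f x) x + dist x y := dist_triangle4 _ _ _ _
    _ = dist x y + dist (f x) x + dist x y := by rw [f.dist_eq, dist_comm y x]
    _ = _ := by ring

end Isom

end Pool.Agent.Lat
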