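import Pool.Agent.Lib_helper41.Lat.Iface

/-!
# Block G, part 1: discrete cocompact subgroups of topological groups
-/

namespace Pool.Agent.Lat

open Set Topology Filter
open scoped Pointwise

set_option linter.unusedSectionVars false
set_option linter.unusedVariables false

section General
variable {L : Type*} [Group L] [TopologicalSpace L] [IsTopologicalGroup L]

/-- discreteness of a subgroup, expressed at the identity -/
def Disc (Γ : Subgroup L) : Prop := ∃ U ∈ 𝓝 (1 : L), ∀ γ ∈ Γ, γ ∈ U → γ = 1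

theorem Disc.mono {Γ N : Subgroup L} (h : Disc Γ) (hN : N ≤ Γ) : Disc N := by
  obtain ⟨U, hU, h⟩ := h
  exact ⟨U, hU, fun γ hγ => h γ (hN hγ)⟩

theorem Disc.finite_inter {Γ : Subgroup L} (hΓ : Disc Γ) {K : Set L} (hK : IsCompact K) :
    ((Γ : Set L) ∩ K).Finite := by
  obtain ⟨U, hU, h⟩ := hΓ
  obtain ⟨V, hV, hVV⟩ := exists_nhds_split_inv hU
  have hnh : ∀ k ∈ K, {x : L | x * k⁻¹ ∈ V} ∈ 𝓝 k := by
    intro k _
    have hc : Continuous (fun x : L => x * k⁻¹) := continuous_mul_const _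
    have : V ∈ 𝓝 ((fun x : L => x * k⁻¹) k) := by simpa using hV
    exact hc.continuousAt this
  obtain ⟨t, _, hcov⟩ := hK.elim_nhds_subcover (fun k => {x : L | x * k⁻¹ ∈ V}) hnh
  refine (t.finite_toSet.biUnion (t := fun k => (Γ : Set L) ∩ {x : L | x * k⁻¹ ∈ V})
    (fun k _ => ?_)).subset ?_
  · refine Set.Subsingleton.finite ?_
    rintro a ⟨ha, ha'⟩ b ⟨hb, hb'⟩
    have h1 := hVV _ ha' _ hb'
    have h2 : a * k⁻¹ / (b * k⁻¹) = a * b⁻¹ := by rw [div_eq_mul_inv]; group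
    rw [h2] at h1
    have := h (a * b⁻¹) (Γ.mul_mem ha (Γ.inv_mem hb)) h1
    exact mul_inv_eq_one.1 this
  · rintro x ⟨hx, hxK⟩
    obtain ⟨k, hk, hxk⟩ := mem_iUnion₂.1 (hcov hxK)
    exact mem_iUnion₂.2 ⟨k, hk, hx, hxk⟩

theorem cocompactIn_of_closed {Γ M : Subgroup L} (hΓM : Γ ≤ M) (hM : IsClosed (M : Set L))
    (hL : Cocompact (Γ : Set L)) : CocompactIn (Γ : Set L) M := by
  obtain ⟨Q, hQ, h⟩ := hL
  refine ⟨Q ∩ M, hQ.inter_right hM, inter_subset_right, fun g hg => ?_⟩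
  obtain ⟨b, hb, q, hq, rfl⟩ := h g
  refine ⟨b, hb, q, ⟨hq, ?_⟩, rfl⟩
  have := M.mul_mem (M.inv_mem (hΓM hb)) hg
  simpa using this

theorem cocompactIn_inter {Γ M M₀ : Subgroup L} (hΓM : Γ ≤ M)
    (hM : CocompactIn (Γ : Set L) M) (hM₀ : M₀ ≤ M)
    (hopen : ∃ U ∈ 𝓝 (1 : L), ∀ m ∈ M, m ∈ U → m ∈ M₀) (hcl : IsClosed (M₀ : Set L)) :
    CocompactIn ((Γ ⊓ M₀ : Subgroup L) : Set L) M₀ := by
  classical
  obtain ⟨Q, hQ, hQM, hcov⟩ := hM
  obtain ⟨U, hU, hUM⟩ := hopen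
  have hnh : ∀ q ∈ Q, {x : L | q⁻¹ * x ∈ U} ∈ 𝓝 q := by
    intro q _
    have hc : Continuous (fun x : L => q⁻¹ * x) := continuous_const_mul _
    have : U ∈ 𝓝 ((fun x : L => q⁻¹ * x) q) := by simpa using hU
    exact hc.continuousAt this
  obtain ⟨t, htQ, hcovt⟩ := hQ.elim_nhds_subcover (fun q => {x : L | q⁻¹ * x ∈ U}) hnh
  -- representative of Γ in the coset `M₀ * q⁻¹`
  let rep : L → L := fun q => if h : ∃ γ ∈ Γ, γ * q ∈ M₀ then h.choose else 1
  have hrep : ∀ q, (∃ γ ∈ Γ, γ * q ∈ M₀) → rep q ∈ Γ ∧ rep q * q ∈ M₀ := by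
    intro q h
    simp only [rep, dif_pos h]
    exact h.choose_spec
  refine ⟨(⋃ q ∈ t, (fun x => rep q * x) '' Q) ∩ M₀, ?_, inter_subset_right, ?_⟩
  · refine IsCompact.inter_right ?_ hcl
    exact t.isCompact_biUnion fun q _ => hQ.image (continuous_const_mul _)
  · intro g hg
    obtain ⟨γ, hγ, q, hq, rfl⟩ := hcov g (hM₀ hg)
    obtain ⟨q', hq', hqq'⟩ := mem_iUnion₂.1 (hcovt hq)
    have h1 : q'⁻¹ * q ∈ M₀ := hUM _ (M.mul_mem (M.inv_mem (hQM (htQ q' hq'))) (hQM hq)) hqq'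
    have h2 : γ * q' ∈ M₀ := by
      have := M₀.mul_mem hg (M₀.inv_mem h1)
      have e : γ * q * (q'⁻¹ * q)⁻¹ = γ * q' := by group
      rwa [e] at this
    obtain ⟨h3, h4⟩ := hrep q' ⟨γ, hγ, h2⟩
    have h5 : γ * (rep q')⁻¹ ∈ M₀ := by
      have := M₀.mul_mem h2 (M₀.inv_mem h4)
      have e : γ * q' * (rep q' * q')⁻¹ = γ * (rep q')⁻¹ := by group
      rwa [e] at this
    refine ⟨γ * (rep q')⁻¹, ⟨Γ.mul_mem hγ (Γ.inv_mem h3), h5⟩, rep q' * q, ⟨?_, ?_⟩, by group⟩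
    · exact mem_iUnion₂.2 ⟨q', hq', q, hq, rfl⟩
    · have := M₀.mul_mem (M₀.inv_mem h5) hg
      have e : (γ * (rep q')⁻¹)⁻¹ * (γ * q) = rep q' * q := by group
      rwa [e] at this

theorem fg_of_cocompactIn {N M : Subgroup L} (hN : Disc N) (hNM : N ≤ M)
    (hc : CocompactIn (N : Set L) M) (hg : CompactlyGen M) :
    ∃ F : Set L, F.Finite ∧ F ⊆ N ∧ Subgroup.closure F = N := by
  obtain ⟨Q, hQ, hQM, hcov⟩ := hc
  obtain ⟨C, hC, rfl⟩ := hg
  let Q' : Set L := insert 1 Q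
  let C' : Set L := C ∪ C⁻¹
  have hQ' : IsCompact Q' := hQ.insert 1
  have hC' : IsCompact C' := hC.union hC.inv
  have hK : IsCompact ((Q' * C') * Q'⁻¹) := (hQ'.mul hC').mul hQ'.inv
  let F : Set L := (N : Set L) ∩ (((Q' * C') * Q'⁻¹) ∪ Q')
  have hF : F.Finite := hN.finite_inter (hK.union hQ')
  have hFN : F ⊆ N := inter_subset_left
  have hle : Subgroup.closure F ≤ N := (Subgroup.closure_le _).2 hFN
  refine ⟨F, hF, hFN, le_antisymm hle ?_⟩
  have hmem : ∀ m ∈ Subgroup.closure C, ∃ s ∈ Subgroup.closure F, ∃ q ∈ Q', m = s * q := by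
    have hstep : ∀ m ∈ Subgroup.closure C, ∀ c ∈ C',
        (∃ s ∈ Subgroup.closure F, ∃ q ∈ Q', m = s * q) →
        ∃ s ∈ Subgroup.closure F, ∃ q ∈ Q', m * c = s * q := by
      rintro m hm c hc ⟨s, hs, q, hq, rfl⟩
      have hcM : c ∈ Subgroup.closure C := by
        rcases hc with hc | hc
        · exact Subgroup.subset_closure hc
        · rw [Set.mem_inv] at hc
          exact (Subgroup.inv_mem_iff _).1 (Subgroup.subset_closure hc)
      have hqM : q ∈ Subgroup.closure C := by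
        rcases hq with rfl | hq
        · exact Subgroup.one_mem _
        · exact hQM hq
      obtain ⟨n, hn, q₁, hq₁, he⟩ := hcov (q * c) (Subgroup.mul_mem _ hqM hcM)
      have hnF : n ∈ F := by
        refine ⟨hn, Or.inl ?_⟩
        have : n = (q * c) * q₁⁻¹ := by rw [he]; group
        rw [this]
        exact Set.mul_mem_mul (Set.mul_mem_mul hq hc) (Set.inv_mem_inv.2 (Or.inr hq₁))
      refine ⟨s * n, Subgroup.mul_mem _ hs (Subgroup.subset_closure hnF), q₁, Or.inr hq₁, ?_⟩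
      rw [mul_assoc, mul_assoc, he]
    intro m hm
    induction hm using Subgroup.closure_induction_right with
    | one => exact ⟨1, Subgroup.one_mem _, 1, Or.inl rfl, by simp⟩
    | mul_right x hx y hy ih => exact hstep x hx y (Or.inl hy) ih
    | mul_inv_cancel x hx y hy ih => exact hstep x hx y⁻¹ (Or.inr (by simpa using hy)) ih
  intro n hn
  obtain ⟨s, hs, q, hq, rfl⟩ := hmem n (hNM hn)
  have hqN : q ∈ N := by
    have := N.mul_mem (N.inv_mem (hle hs)) hn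
    simpa using this
  exact Subgroup.mul_mem _ hs (Subgroup.subset_closure ⟨hqN, Or.inr hq⟩)

end General

end Pool.Agent.Lat
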