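import Pool.Agent.Lib_helper41.Lat.Defs

/-!
# Auxiliary (internal) definitions used in the proofs
-/

namespace Pool.Agent.Lat

open Set Topology

universe u

/-- First singular cohomology with integer coefficients (internal form). -/
abbrev SingularH1 (B : Type*) [TopologicalSpace B] : Type _ :=
  (coboundary 1 B).ker ⧸ ((coboundary 0 B).range.addSubgroupOf (coboundary 1 B).ker)

/-- The orbit relation on `X` of a subgroup `Γ` of `G × I × A`, acting through the third factor
(internal form). -/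
def orbitSetoid {X G I : Type*} [MetricSpace X] [Group G] [Group I] {A : Subgroup (X ≃ᵢ X)}
    (Γ : Subgroup (G × I × A)) : Setoid X where
  r x y := ∃ γ ∈ Γ, (γ.2.2 : X ≃ᵢ X) x = y
  iseqv := by
    refine ⟨fun x => ⟨1, Γ.one_mem, rfl⟩, ?_, ?_⟩
    · rintro x y ⟨γ, hγ, rfl⟩
      exact ⟨γ⁻¹, Γ.inv_mem hγ, by simp⟩
    · rintro x y z ⟨γ, hγ, rfl⟩ ⟨δ, hδ, rfl⟩
      exact ⟨δ * γ, Γ.mul_mem hδ hγ, by simp⟩

/-- The centreless case (only used in the older files `Lib_helper90/LatS`). -/
def IsNoncompactSemisimple (G : Type*) [Group G] [TopologicalSpace G] : Prop :=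
  ConnectedSpace G ∧ (∀ z : G, (∀ g : G, g * z = z * g) → z = 1) ∧
  (∀ N : Subgroup G, N.Normal → IsCompact (N : Set G) → N = ⊥) ∧
  ∃ (m : ℕ) (ρ : G →* GL (Fin m) ℝ), IsClosedEmbedding ρ ∧
    ∀ g : G, ∃ g' : G, (ρ g' : Matrix (Fin m) (Fin m) ℝ) = (ρ g : Matrix (Fin m) (Fin m) ℝ).transpose

/-- Euclidean space of dimension `n`. -/
abbrev EE (n : ℕ) := EuclideanSpace ℝ (Fin n)

/-- The linear part of an isometry of Euclidean space: `lin b w = b w - b 0`. -/
noncomputable def lin {n : ℕ} (b : EE n ≃ᵢ EE n) : EE n ≃ₗᵢ[ℝ] EE n :=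
  b.toRealLinearIsometryEquiv

theorem lin_apply {n : ℕ} (b : EE n ≃ᵢ EE n) (w : EE n) : lin b w = b w - b 0 :=
  b.toRealLinearIsometryEquiv_apply w

theorem apply_add {n : ℕ} (b : EE n ≃ᵢ EE n) (v w : EE n) : b (v + w) = b v + lin b w := by
  have h := (lin b).map_add v w
  rw [lin_apply, lin_apply] at h
  rw [sub_eq_iff_eq_add] at h
  rw [h]; abel

theorem lin_mul {n : ℕ} (b c : EE n ≃ᵢ EE n) (w : EE n) : lin (b * c) w = lin b (lin c w) := by
  rw [lin_apply, lin_apply c, map_sub, lin_apply, lin_apply]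
  simp

theorem lin_one {n : ℕ} (w : EE n) : lin (1 : EE n ≃ᵢ EE n) w = w := by
  rw [lin_apply]; simp

/-- translation by `w` -/
noncomputable def trans {n : ℕ} (w : EE n) : EE n ≃ᵢ EE n := IsometryEquiv.addRight w

@[simp] theorem trans_apply {n : ℕ} (w v : EE n) : trans w v = v + w := rfl

theorem lin_trans {n : ℕ} (w v : EE n) : lin (trans w) v = v := by
  rw [lin_apply]; simp

/-- The point at parameter `t ∈ [0,1]` of the geodesic from `x` to `y` in a CAT(0) space. -/
noncomputable def IsCAT0.geo {X : Type*} [MetricSpace X] (hX : IsCAT0 X) (x y : X) (t : ℝ) : X :=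
  (hX.geodesic x y).choose t

/-- `B` is cocompact in the group `G` (every element is `b * q` with `q` in a compact set). -/
def Cocompact {G : Type*} [Group G] [TopologicalSpace G] (B : Set G) : Prop :=
  ∃ Q : Set G, IsCompact Q ∧ ∀ g : G, ∃ b ∈ B, ∃ q ∈ Q, g = b * q

/-- `B` is cocompact in the subgroup `A` -/
def CocompactIn {G : Type*} [Group G] [TopologicalSpace G] (B : Set G) (A : Subgroup G) : Prop :=
  ∃ Q : Set G, IsCompact Q ∧ Q ⊆ A ∧ ∀ g ∈ A, ∃ b ∈ B, ∃ q ∈ Q, g = b * q

/-- compactly generated subgroup -/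
def CompactlyGen {G : Type*} [Group G] [TopologicalSpace G] (H : Subgroup G) : Prop :=
  ∃ Q : Set G, IsCompact Q ∧ Subgroup.closure Q = H

/-- No nonzero continuous homomorphism to the reals. -/
def NoChar (G : Type*) [Group G] [TopologicalSpace G] : Prop :=
  ∀ χ : G → ℝ, Continuous χ → (∀ g h, χ (g * h) = χ g + χ h) → ∀ g, χ g = 0

/-- Recurrence property of a set `B ⊆ G` (consequence of finite covolume of a subgroup generated by
`B`): a continuous left `B`-invariant function which does not increase under right translation by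
`x` is invariant under right translation by `x`. -/
def Rec {G : Type*} [Group G] [TopologicalSpace G] (B : Set G) : Prop :=
  ∀ θ : G → ℝ, Continuous θ → (∀ h ∈ B, ∀ g, θ (h * g) = θ g) → ∀ x : G,
    (∀ g, θ (g * x) ≤ θ g) → ∀ g, θ (g * x) = θ g

/-- The action of `Γ` on `G × E^n` given by two homomorphisms. -/
noncomputable def act {Γ G : Type*} [Group Γ] [Group G] {n : ℕ} (a : Γ →* G)
    (b : Γ →* (EE n ≃ᵢ EE n)) (γ : Γ) (z : G × EE n) : G × EE n := (a γ * z.1, b γ z.2)

/-- the exponential of a real matrix as an invertible matrix -/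
noncomputable def expGL {m : ℕ} (X : Matrix (Fin m) (Fin m) ℝ) : GL (Fin m) ℝ where
  val := NormedSpace.exp X
  inv := NormedSpace.exp (-X)
  val_inv := by
    rw [← Matrix.exp_add_of_commute _ _ (Commute.neg_right (Commute.refl X)), add_neg_cancel,
      NormedSpace.exp_zero]
  inv_val := by
    rw [← Matrix.exp_add_of_commute _ _ (Commute.neg_left (Commute.refl X)), neg_add_cancel,
      NormedSpace.exp_zero]

/-- The Lie algebra of a subgroup of `GL_m(ℝ)` (as a set of matrices). -/
def lieSet {m : ℕ} (H : Subgroup (GL (Fin m) ℝ)) : Set (Matrix (Fin m) (Fin m) ℝ) :=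
  {X | ∀ t : ℝ, expGL (t • X) ∈ H}

end Pool.Agent.Lat
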