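import Pool.Agent.Lib_helper41.Lat.Pr

/-!
# Point stabilisers of the lattice act properly and cocompactly
-/

namespace Pool.Agent.Lat

open Set Topology Filter
open scoped Pointwise

section P
variable {X : Type*} [MetricSpace X] {G : Type*} [Group G] [TopologicalSpace G]
  [IsTopologicalGroup G] {n : ℕ} {A : Subgroup (X ≃ᵢ X)}

theorem stab_proper [ProperSpace X] (hA : IsClosed (A : Set (X ≃ᵢ X)))
    (Γ : Subgroup (G × (EE n ≃ᵢ EE n) × A)) (hΓ : Disc Γ) (x : X) (K : Set (G × EE n))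
    (hK : IsCompact K) :
    {δ : Γ | δ ∈ stabX Γ x ∧ (act (prG Γ) (prV Γ) δ '' K ∩ K).Nonempty}.Finite := by
  have hK1 : IsCompact (Prod.fst '' K) := hK.image continuous_fst
  obtain ⟨ρ, hρ⟩ := (hK.image continuous_snd).isBounded.subset_closedBall (0 : EE n)
  let CG : Set G := (Prod.fst '' K) * (Prod.fst '' K)⁻¹
  let CV : Set (EE n ≃ᵢ EE n) := {f | dist (f 0) 0 ≤ 2 * ρ}
  let CA : Set A := {a | dist ((a : X ≃ᵢ X) x) x ≤ 0}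
  have hCA : IsCompact CA := by
    have h2 : IsClosedEmbedding (Subtype.val : A → X ≃ᵢ X) := hA.isClosedEmbedding_subtypeVal
    exact h2.isCompact_preimage (isCompact_isom X x 0)
  have hC : IsCompact (CG ×ˢ (CV ×ˢ CA)) :=
    (hK1.mul hK1.inv).prod ((isCompact_isom (EE n) 0 (2 * ρ)).prod hCA)
  refine ((hΓ.finite_inter hC).preimage Subtype.val_injective.injOn).subset ?_
  rintro δ ⟨hδ, ⟨_, ⟨z, hz, rfl⟩, hz'⟩⟩
  refine ⟨δ.2, ?_, ?_, ?_⟩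
  · have h1 : (δ : G × (EE n ≃ᵢ EE n) × A).1 = (act (prG Γ) (prV Γ) δ z).1 * z.1⁻¹ := by
      change _ = (δ : G × (EE n ≃ᵢ EE n) × A).1 * z.1 * z.1⁻¹
      group
    change (δ : G × (EE n ≃ᵢ EE n) × A).1 ∈ CG
    rw [h1]
    exact Set.mul_mem_mul ⟨_, hz', rfl⟩ (Set.inv_mem_inv.2 ⟨_, hz, rfl⟩)
  · have h1 : dist z.2 0 ≤ ρ := Metric.mem_closedBall.1 (hρ ⟨z, hz, rfl⟩)
    have h2 : dist ((δ : G × (EE n ≃ᵢ EE n) × A).2.1 z.2) 0 ≤ ρ :=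
      Metric.mem_closedBall.1 (hρ ⟨_, hz', rfl⟩)
    change dist ((δ : G × (EE n ≃ᵢ EE n) × A).2.1 0) 0 ≤ 2 * ρ
    calc dist ((δ : G × (EE n ≃ᵢ EE n) × A).2.1 0) 0
        ≤ dist ((δ : G × (EE n ≃ᵢ EE n) × A).2.1 0) ((δ : G × (EE n ≃ᵢ EE n) × A).2.1 z.2) +
          dist ((δ : G × (EE n ≃ᵢ EE n) × A).2.1 z.2) 0 := dist_triangle _ _ _
      _ ≤ ρ + ρ := by
          rw [IsometryEquiv.dist_eq, dist_comm 0 z.2]
          exact add_le_add h1 h2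
      _ = 2 * ρ := by ring
  · have h1 : ((δ : G × (EE n ≃ᵢ EE n) × A).2.2 : X ≃ᵢ X) x = x := hδ
    change dist (((δ : G × (EE n ≃ᵢ EE n) × A).2.2 : X ≃ᵢ X) x) x ≤ 0
    rw [h1, dist_self]

theorem stab_cocompact
    (hstab : ∀ x : X, ∃ U ∈ 𝓝 (1 : X ≃ᵢ X), ∀ f ∈ U, f ∈ A → f x = x)
    (Γ : Subgroup (G × (EE n ≃ᵢ EE n) × A))
    (hcoc : Cocompact (Γ : Set (G × (EE n ≃ᵢ EE n) × A))) (x : X) (γ : Γ) :
    ∃ Q : Set (G × EE n), IsCompact Q ∧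
      ∀ z, ∃ δ ∈ stabX Γ x, γ * δ * γ⁻¹ ∈ stabX Γ x ∧ act (prG Γ) (prV Γ) δ z ∈ Q := by
  set y : X := prX Γ γ⁻¹ x with hy
  let M₀ : Subgroup (G × (EE n ≃ᵢ EE n) × A) :=
    { carrier := {ℓ | (ℓ.2.2 : X ≃ᵢ X) x = x ∧ (ℓ.2.2 : X ≃ᵢ X) y = y}
      one_mem' := ⟨rfl, rfl⟩
      mul_mem' := by
        rintro a b ⟨ha, ha'⟩ ⟨hb, hb'⟩
        refine ⟨?_, ?_⟩
        · change (a.2.2 : X ≃ᵢ X) ((b.2.2 : X ≃ᵢ X) x) = x
          rw [hb, ha]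
        · change (a.2.2 : X ≃ᵢ X) ((b.2.2 : X ≃ᵢ X) y) = y
          rw [hb', ha']
      inv_mem' := by
        rintro a ⟨ha, ha'⟩
        refine ⟨?_, ?_⟩
        · change ((a.2.2 : X ≃ᵢ X)⁻¹ : X ≃ᵢ X) x = x
          conv_lhs => rw [← ha]
          simp
        · change ((a.2.2 : X ≃ᵢ X)⁻¹ : X ≃ᵢ X) y = y
          conv_lhs => rw [← ha']
          simp }
  have hcA : Continuous (fun ℓ : G × (EE n ≃ᵢ EE n) × A => (ℓ.2.2 : X ≃ᵢ X)) :=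
    continuous_subtype_val.comp (continuous_snd.comp continuous_snd)
  have hev : ∀ u : X, Continuous (fun ℓ : G × (EE n ≃ᵢ EE n) × A => (ℓ.2.2 : X ≃ᵢ X) u) :=
    fun u => (continuous_isom_iff.1 continuous_id u).comp hcA
  have hcl : IsClosed (M₀ : Set (G × (EE n ≃ᵢ EE n) × A)) :=
    (isClosed_eq (hev x) continuous_const).inter (isClosed_eq (hev y) continuous_const)
  have hopen : ∃ U ∈ 𝓝 (1 : G × (EE n ≃ᵢ EE n) × A),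
      ∀ m ∈ (⊤ : Subgroup (G × (EE n ≃ᵢ EE n) × A)), m ∈ U → m ∈ M₀ := by
    obtain ⟨U₁, hU₁, h1⟩ := hstab x
    obtain ⟨U₂, hU₂, h2⟩ := hstab y
    refine ⟨(fun ℓ : G × (EE n ≃ᵢ EE n) × A => (ℓ.2.2 : X ≃ᵢ X)) ⁻¹' (U₁ ∩ U₂),
      hcA.continuousAt (by simpa using inter_mem hU₁ hU₂), ?_⟩
    rintro m - ⟨hm1, hm2⟩
    exact ⟨h1 _ hm1 m.2.2.2, h2 _ hm2 m.2.2.2⟩
  obtain ⟨Q₀, hQ₀, _, hcov⟩ := cocompactIn_inter (M := ⊤) (M₀ := M₀) (Γ := Γ) le_top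
    (cocompactIn_of_closed le_top isClosed_univ hcoc) le_top hopen hcl
  refine ⟨(fun q : G × (EE n ≃ᵢ EE n) × A => (q.1, q.2.1 0)) '' Q₀, hQ₀.image ?_, ?_⟩
  · exact continuous_fst.prodMk ((continuous_isom_iff.1 continuous_id (0 : EE n)).comp
      (continuous_fst.comp continuous_snd))
  · rintro ⟨g, v⟩
    obtain ⟨δ, hδ, q, hq, he⟩ := hcov (g, trans v, 1) ⟨rfl, rfl⟩
    have hδ' : δ ∈ Γ ⊓ M₀ := hδ
    have hδi := (Γ ⊓ M₀).inv_mem hδ'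
    refine ⟨⟨δ⁻¹, hδi.1⟩, hδi.2.1, ?_, ⟨q, hq, ?_⟩⟩
    · change prX Γ (γ * ⟨δ⁻¹, hδi.1⟩ * γ⁻¹) x = x
      rw [map_mul, map_mul, IsometryEquiv.mul_apply, IsometryEquiv.mul_apply, ← hy]
      have h1 : prX Γ ⟨δ⁻¹, hδi.1⟩ y = y := hδi.2.2
      rw [h1, hy, map_inv, IsometryEquiv.apply_inv_self]
    · have hq' : q = δ⁻¹ * (g, trans v, 1) := by rw [he]; group
      rw [hq']
      refine Prod.ext rfl ?_
      change (δ⁻¹.2.1 * trans v) 0 = δ⁻¹.2.1 v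
      rw [IsometryEquiv.mul_apply, trans_apply, zero_add]

end P

end Pool.Agent.Lat
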