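import Pool.Agent.Lib_helper41.Lat.Dense
import Pool.Agent.Lib_helper31.LatU
import Pool.Agent.Lib_helper41.Lat.Stab
import Pool.Agent.Lib_helper95.LatHarm

/-!
# Homomorphisms to the reals kill the point stabilisers
-/

namespace Pool.Agent.Lat

open Set Topology Filter
open scoped Pointwise

section Core
variable {X : Type*} [MetricSpace X] {G : Type*} [Group G] [TopologicalSpace G]
  [IsTopologicalGroup G] {n : ℕ} {A : Subgroup (X ≃ᵢ X)}

theorem kill_stab [ProperSpace X] (hX : IsCAT0 X) (hA : IsClosed (A : Set (X ≃ᵢ X)))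
    (hstab : ∀ x : X, ∃ U ∈ 𝓝 (1 : X ≃ᵢ X), ∀ f ∈ U, f ∈ A → f x = x)
    (hco : ActsCocompactly A) (hmin : ActsMinimally A) (hG : SSI G)
    (Γ : Subgroup (G × (EE n ≃ᵢ EE n) × A)) (hΓ : Disc Γ)
    (hcoc : Cocompact (Γ : Set (G × (EE n ≃ᵢ EE n) × A))) (hirr : IrrProp Γ)
    (hinf : ¬ ((fun ℓ : G × (EE n ≃ᵢ EE n) × A => ℓ.2.2) '' (Γ : Set _)).Finite)
    (φ : Γ → ℝ) (hφ : ∀ x y, φ (x * y) = φ x + φ y) (x : X) (γ : Γ) (hγ : prX Γ γ x = x) :
    φ γ = 0 := by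
  have hLC := hG.lc
  have hSC := hG.sc
  have hT2 := hG.t2
  have hconn := hG.conn
  have hnc := hG.nochar
  have hproper := stab_proper hA Γ hΓ x
  have hcocx := stab_cocompact hstab Γ hcoc x
  have hrec : Rec (prG Γ '' (stabX Γ x : Set Γ)) := by
    refine rec_of_action hnc (prG Γ) (prV Γ) (stabX Γ x) hproper ?_
    obtain ⟨Q, hQ, h⟩ := hcocx 1
    exact ⟨Q, hQ, fun z => by
      obtain ⟨δ, hδ, _, hz⟩ := h z
      exact ⟨δ, hδ, hz⟩⟩
  obtain ⟨hdense, hfix⟩ := lattice_core hX hA hstab hco hmin hG Γ hΓ hcoc hirr hinf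
    (hrec.mono (image_subset_range _ _))
  exact harmonic_final hnc (prG Γ) (prV Γ) (stabX Γ x) hproper hcocx hdense hfix φ hφ γ hγ

end Core

end Pool.Agent.Lat
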