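import Pool.Agent.Lib_helper41.Lat.Red
import Pool.Agent.Lib_helper56.LatT

/-!
# Final assembly
-/

namespace Pool.Agent.Lat

open Set Topology Filter
open scoped Pointwise

/-- group cohomology in degree one with trivial integer coefficients -/
theorem H1_equiv (Γ : Type) [Group Γ] :
    Nonempty (groupCohomology.H1 (Rep.trivial ℤ Γ ℤ) ≃+ (Additive Γ →+ ℤ)) :=
  ⟨(groupCohomology.H1IsoOfIsTrivial (Rep.trivial ℤ Γ ℤ)).toLinearEquiv.toAddEquiv⟩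

section Isom
variable {X : Type*} [MetricSpace X] [ProperSpace X]

/-- orbits of groups with open point stabilisers are uniformly discrete at each point -/
theorem orbit_discrete (A : Subgroup (X ≃ᵢ X)) (hA : IsClosed (A : Set (X ≃ᵢ X)))
    (hstab : ∀ x : X, ∃ U ∈ 𝓝 (1 : X ≃ᵢ X), ∀ f ∈ U, f ∈ A → f x = x) (x : X) :
    ∃ r > 0, ∀ f ∈ A, dist (f x) x < r → f x = x := by
  have hcx : Continuous (fun g : X ≃ᵢ X => g x) := continuous_isom_iff.1 continuous_id x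
  let D : Set (X ≃ᵢ X) := ({f | dist (f x) x ≤ 1} ∩ A) ∩ {f | f x = x}ᶜ
  -- `D` is compact
  have hC : IsCompact ({f : X ≃ᵢ X | dist (f x) x ≤ 1} ∩ (A : Set (X ≃ᵢ X))) :=
    (isCompact_isom X x 1).inter_right hA
  obtain ⟨U, hU, hUA⟩ := hstab x
  have hDc : IsCompact D := by
    refine hC.of_isClosed_subset ?_ inter_subset_left
    rw [← isOpen_compl_iff, isOpen_iff_mem_nhds]
    intro g hg
    by_cases hgA : g ∈ ({f : X ≃ᵢ X | dist (f x) x ≤ 1} ∩ (A : Set (X ≃ᵢ X)))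
    · have hgx : g x = x := by
        by_contra h
        exact hg ⟨hgA, h⟩
      have h1 : {h : X ≃ᵢ X | g⁻¹ * h ∈ U} ∈ 𝓝 g := by
        have hc : Continuous (fun h : X ≃ᵢ X => g⁻¹ * h) := continuous_const_mul _
        exact hc.continuousAt (by simpa using hU)
      filter_upwards [h1] with h hh hD
      obtain ⟨⟨_, hhA⟩, hhx⟩ := hD
      apply hhx
      have h2 := hUA _ hh (A.mul_mem (A.inv_mem hgA.2) hhA)
      have h3 : h x = g ((g⁻¹ * h : X ≃ᵢ X) x) := by simp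
      change h x = x
      rw [h3, h2, hgx]
    · have h1 : (({f : X ≃ᵢ X | dist (f x) x ≤ 1} ∩ (A : Set (X ≃ᵢ X))))ᶜ ∈ 𝓝 g :=
        hC.isClosed.isOpen_compl.mem_nhds hgA
      filter_upwards [h1] with h hh hD
      exact hh hD.1
  rcases D.eq_empty_or_nonempty with hD | hD
  · refine ⟨1, one_pos, fun f hf hfx => ?_⟩
    by_contra h
    have : f ∈ D := ⟨⟨hfx.le, hf⟩, h⟩
    rw [hD] at this
    exact this
  · obtain ⟨f₀, hf₀, hmin⟩ := hDc.exists_isMinOn hD (hcx.dist continuous_const).continuousOn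
      (f := fun g : X ≃ᵢ X => dist (g x) x)
    have hpos : 0 < dist (f₀ x) x := dist_pos.2 hf₀.2
    refine ⟨min 1 (dist (f₀ x) x), lt_min one_pos hpos, fun f hf hfx => ?_⟩
    by_contra h
    have h1 : f ∈ D := ⟨⟨(hfx.le.trans (min_le_left _ _)), hf⟩, h⟩
    have h2 : dist (f₀ x) x ≤ dist (f x) x := hmin h1
    have h3 := hfx.trans_le (min_le_right _ _)
    linarith

end Isom

theorem locallyCompact_of_open {G : Type*} [Group G] [TopologicalSpace G] [IsTopologicalGroup G]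
    (G₀ : Subgroup G) (hopen : IsOpen (G₀ : Set G)) [LocallyCompactSpace G₀] :
    LocallyCompactSpace G := by
  obtain ⟨K, hK, hKn⟩ := exists_compact_mem_nhds (1 : G₀)
  have h1 : IsCompact ((Subtype.val : G₀ → G) '' K) := hK.image continuous_subtype_val
  have h2 : (Subtype.val : G₀ → G) '' K ∈ 𝓝 (1 : G) := by
    exact hopen.isOpenEmbedding_subtypeVal.isOpenMap.image_mem_nhds hKn
  exact h1.locallyCompactSpace_of_mem_nhds_of_group h2

theorem main (X : Type) [MetricSpace X] (K : PolyComplex X) (hX : IsCAT0 X)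
    (hco : ActsCocompactly K.Aut) (hmin : ActsMinimally K.Aut)
    (G : Type) [Group G] [TopologicalSpace G] [IsTopologicalGroup G]
    (hG : IsSemisimpleGroup G) (n : ℕ)
    (Γ : Subgroup (G × (EuclideanSpace ℝ (Fin n) ≃ᵢ EuclideanSpace ℝ (Fin n)) × K.Aut))
    (hΓ : IsUniformLattice Γ) (hirr : AlgIrreducible Γ)
    (hnd : ¬ DiscreteTopology (Γ.map ((MonoidHom.snd
      (EuclideanSpace ℝ (Fin n) ≃ᵢ EuclideanSpace ℝ (Fin n)) K.Aut).comp (MonoidHom.snd G _)))) :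
    Nonempty (groupCohomology.H1 (Rep.trivial ℤ Γ ℤ) ≃+
      SingularH1 (Quotient (orbitSetoid Γ))) := by
  have : ProperSpace X := K.properSpace hX hco
  have hA := K.isClosed_aut
  have hstab := K.stab_open hX
  obtain ⟨G₀, hopen, hfi, hG₀⟩ := hG
  obtain ⟨hLC₀, _, _⟩ := ss_topology hG₀
  have hLC : LocallyCompactSpace G := locallyCompact_of_open G₀ hopen
  have hLCA : LocallyCompactSpace K.Aut := hA.isClosedEmbedding_subtypeVal.locallyCompactSpace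
  have hdisc : Disc Γ := disc_of_lattice hΓ
  have hcoc : Cocompact (Γ : Set (G × (EE n ≃ᵢ EE n) × K.Aut)) := cocompact_of_lattice hΓ
  have hirr' : IrrProp Γ := irrProp_of_algIrreducible hirr
  have hinf : ¬ ((fun ℓ : G × (EE n ≃ᵢ EE n) × K.Aut => ℓ.2.2) '' (Γ : Set _)).Finite := by
    intro h
    apply hnd
    have h1 : ((Γ.map ((MonoidHom.snd (EE n ≃ᵢ EE n) K.Aut).comp (MonoidHom.snd G _)) :
        Subgroup K.Aut) : Set K.Aut).Finite := h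
    have : Finite (Γ.map ((MonoidHom.snd (EE n ≃ᵢ EE n) K.Aut).comp (MonoidHom.snd G _))) :=
      h1
    infer_instance
  -- pass to the finite-index subgroup in `G₀ × ...`
  let P := (EE n ≃ᵢ EE n) × K.Aut
  let Γ₀ : Subgroup (G₀ × P) := Γ.comap (incl G₀ P)
  have hd₀ : Disc Γ₀ := disc_comap G₀ Γ hdisc
  have hc₀ : Cocompact (Γ₀ : Set (G₀ × P)) := cocompact_comap G₀ hopen Γ hcoc
  have hi₀ : IrrProp Γ₀ := irr_comap G₀ hfi Γ hirr'
  have hinf₀ : ¬ ((fun ℓ : G₀ × (EE n ≃ᵢ EE n) × K.Aut => ℓ.2.2) '' (Γ₀ : Set _)).Finite := by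
    intro h
    apply hinf
    obtain ⟨S, hS, hSΓ⟩ := finiteIndex_comap (P := P) G₀ hfi Γ
    refine (h.mul (hS.image (fun ℓ : G × (EE n ≃ᵢ EE n) × K.Aut => ℓ.2.2))).subset ?_
    rintro _ ⟨γ, hγ, rfl⟩
    obtain ⟨γ₀, hγ₀, s, hs, rfl⟩ := hSΓ γ hγ
    exact ⟨γ₀.2.2, ⟨γ₀, hγ₀, rfl⟩, s.2.2, ⟨s, hs, rfl⟩, rfl⟩
  -- homomorphisms to the integers kill the point stabilisers
  have hkill : ∀ (φ : Additive Γ →+ ℤ) (γ : Γ) (x : X), prX Γ γ x = x →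
      φ (Additive.ofMul γ) = 0 := by
    intro φ γ x hγx
    obtain ⟨k, hk, γ₀, hγ₀, he⟩ := pow_mem_comap G₀ hfi Γ γ γ.2
    let φ₀ : Γ₀ → ℝ := fun δ => (φ (Additive.ofMul ⟨incl G₀ P δ, δ.2⟩) : ℤ)
    have hφ₀ : ∀ x y, φ₀ (x * y) = φ₀ x + φ₀ y := by
      intro a b
      simp only [φ₀]
      rw [← Int.cast_add, ← map_add]
      rfl
    have hx₀ : prX Γ₀ ⟨γ₀, hγ₀⟩ x = x := by
      have h1 : prX Γ₀ ⟨γ₀, hγ₀⟩ = (prX Γ γ) ^ k := by
        have h2 : (incl G₀ P γ₀).2.2 = ((γ : G × (EE n ≃ᵢ EE n) × K.Aut) ^ k).2.2 := by rw [he]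
        have h3 := congrArg (fun a : K.Aut => (a : X ≃ᵢ X)) h2
        exact h3
      rw [h1]
      have : ∀ j : ℕ, ((prX Γ γ) ^ j) x = x := by
        intro j
        induction j with
        | zero => simp
        | succ j ih => rw [pow_succ, IsometryEquiv.mul_apply, hγx, ih]
      exact this k
    have h0 := kill_lin hX hA hstab hco hmin hG₀ Γ₀ hd₀ hc₀ hi₀ hinf₀ φ₀ hφ₀ x ⟨γ₀, hγ₀⟩ hx₀
    have h1 : φ (Additive.ofMul (γ ^ k)) = 0 := by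
      have h2 : (⟨incl G₀ P γ₀, hγ₀⟩ : Γ) = γ ^ k := Subtype.ext he
      have h3 : ((φ (Additive.ofMul (⟨incl G₀ P γ₀, hγ₀⟩ : Γ)) : ℤ) : ℝ) = 0 := h0
      rw [h2] at h3
      exact_mod_cast h3
    rw [ofMul_pow, map_nsmul] at h1
    rcases smul_eq_zero.1 h1 with h | h
    · omega
    · exact h
  obtain ⟨e₁⟩ := H1_equiv Γ
  have hS : ∀ x y, (orbitSetoid Γ) x y ↔ ∃ γ : Γ, prX Γ γ x = y := by
    intro x y
    constructor
    · rintro ⟨γ, hγ, rfl⟩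
      exact ⟨⟨γ, hγ⟩, rfl⟩
    · rintro ⟨γ, rfl⟩
      exact ⟨γ, γ.2, rfl⟩
  have hdx : ∀ x : X, ∃ r > 0, ∀ γ : Γ, dist (prX Γ γ x) x < r → prX Γ γ x = x := by
    intro x
    obtain ⟨r, hr, h⟩ := orbit_discrete K.Aut hA hstab x
    exact ⟨r, hr, fun γ hγ => h _ (γ : G × (EE n ≃ᵢ EE n) × K.Aut).2.2.2 hγ⟩
  have hcx : ∃ Q : Set X, IsCompact Q ∧ ∀ x, ∃ γ : Γ, prX Γ γ x ∈ Q := by
    obtain ⟨QX, hQX, hcovX⟩ := hco
    obtain ⟨Q, hQ, hcov⟩ := hcoc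
    refine ⟨(fun p : (X ≃ᵢ X) × X => p.1 p.2) '' (((fun ℓ : G × (EE n ≃ᵢ EE n) × K.Aut =>
      (ℓ.2.2 : X ≃ᵢ X)) '' Q) ×ˢ QX), ?_, fun x => ?_⟩
    · refine ((hQ.image ?_).prod hQX).image (continuous_isom_eval X)
      exact continuous_subtype_val.comp (continuous_snd.comp continuous_snd)
    · obtain ⟨a, ha, hax⟩ := hcovX x
      obtain ⟨γ, hγ, q, hq, he⟩ := hcov (1, 1, (⟨a, ha⟩ : K.Aut)⁻¹)
      refine ⟨⟨γ, hγ⟩⁻¹, ⟨((q.2.2 : X ≃ᵢ X), a x), ⟨⟨q, hq, rfl⟩, hax⟩, ?_⟩⟩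
      have h1 : (a⁻¹ : X ≃ᵢ X) = (γ.2.2 : X ≃ᵢ X) * (q.2.2 : X ≃ᵢ X) := by
        have := congrArg (fun p : G × (EE n ≃ᵢ EE n) × K.Aut => (p.2.2 : X ≃ᵢ X)) he
        exact this
      have h2 : (q.2.2 : X ≃ᵢ X) = (γ.2.2 : X ≃ᵢ X)⁻¹ * a⁻¹ := by rw [h1]; group
      change (q.2.2 : X ≃ᵢ X) (a x) = ((γ.2.2 : X ≃ᵢ X)⁻¹) x
      rw [h2]; simp
  obtain ⟨e₂⟩ := singularH1_quotient hX (prX Γ) hdx hcx (orbitSetoid Γ) hS hkill
  exact ⟨e₁.trans e₂⟩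

end Pool.Agent.Lat
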