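import Mathlib

/-!
# Residual finiteness of finitely generated groups of real matrices (Malcev)
-/

namespace Pool.Agent.Lat

open Set

theorem int_isJacobsonRing : IsJacobsonRing ℤ := by
  rw [isJacobsonRing_iff_prime_eq]
  intro P hP
  by_cases h : P = ⊥
  · subst h
    rw [eq_bot_iff]
    intro x hx
    rw [Ideal.mem_jacobson_iff] at hx
    obtain ⟨z, hz⟩ := hx x
    rw [Ideal.mem_bot] at hz ⊢
    have h1 : z * (x * x + 1) = 1 := by linarith
    have h2 : IsUnit (x * x + 1) := IsUnit.of_mul_eq_one _ (by rw [mul_comm]; exact h1)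
    rcases Int.isUnit_iff.1 h2 with h3 | h3
    · have : x * x = 0 := by linarith
      exact mul_self_eq_zero.1 this
    · nlinarith [mul_self_nonneg x]
  · have := hP.isMaximal h
    exact Ideal.jacobson_eq_self_of_isMaximal

theorem finite_of_finiteType_int (K : Type*) [Field K] [Algebra.FiniteType ℤ K] : Finite K := by
  have := int_isJacobsonRing
  have hfin : Module.Finite ℤ K := finite_of_finite_type_of_isJacobsonRing ℤ K
  obtain ⟨p, hp⟩ := CharP.exists K
  by_cases h : p = 0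
  · subst h
    have := CharP.charP_to_charZero K
    exfalso
    have h1 : IsField ℤ := isField_of_isIntegral_of_isField (R := ℤ) (S := K)
      (RingHom.injective_int (algebraMap ℤ K)) (Field.toIsField K)
    exact Int.not_isField h1
  · refine Module.finite_of_fg_torsion K ?_
    intro x
    refine ⟨⟨(p : ℤ), mem_nonZeroDivisors_of_ne_zero (by exact_mod_cast h)⟩, ?_⟩
    change (p : ℤ) • x = 0
    rw [zsmul_eq_mul]
    simp

variable {m : ℕ}

theorem residual (S : Set (GL (Fin m) ℝ)) (hS : S.Finite) (Z : Set (GL (Fin m) ℝ))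
    (hZ : Z.Finite) (h1 : (1 : GL (Fin m) ℝ) ∉ Z) :
    ∃ (F : Type) (_ : Group F) (_ : Finite F) (f : Subgroup.closure S →* F),
      ∀ z (hz : z ∈ Subgroup.closure S), z ∈ Z → f ⟨z, hz⟩ ≠ 1 := by
  classical
  have hd : ∀ z ∈ Z, ∃ r : ℝ, r ≠ 0 ∧ ∃ i j,
      (z : Matrix (Fin m) (Fin m) ℝ) i j - (1 : Matrix (Fin m) (Fin m) ℝ) i j = r := by
    intro z hz
    by_contra hcon
    push Not at hcon
    apply h1
    have : z = 1 := by
      ext i j
      by_contra hne
      refine hcon _ ?_ i j rfl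
      rw [Units.val_one] at hne
      exact sub_ne_zero.2 hne
    rwa [this] at hz
  choose! d hd using hd
  let E : Set ℝ := (⋃ s ∈ S, range fun ij : Fin m × Fin m =>
      (s : Matrix (Fin m) (Fin m) ℝ) ij.1 ij.2) ∪
    (⋃ s ∈ S, range fun ij : Fin m × Fin m =>
      ((s⁻¹ : GL (Fin m) ℝ) : Matrix (Fin m) (Fin m) ℝ) ij.1 ij.2) ∪ (fun z => (d z)⁻¹) '' Z
  have hE : E.Finite := ((hS.biUnion fun s _ => finite_range _).union
    (hS.biUnion fun s _ => finite_range _)).union (hZ.image _)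
  let R : Subalgebra ℤ ℝ := Algebra.adjoin ℤ E
  have hRfg : R.FG := by
    refine ⟨hE.toFinset, ?_⟩
    rw [hE.coe_toFinset]
  have hft : Algebra.FiniteType ℤ R := R.fg_iff_finiteType.1 hRfg
  let φ : GL (Fin m) R →* GL (Fin m) ℝ := Matrix.GeneralLinearGroup.map (algebraMap R ℝ)
  have hφval : ∀ (g : GL (Fin m) R) i j, (φ g : Matrix (Fin m) (Fin m) ℝ) i j =
      ((g : Matrix (Fin m) (Fin m) R) i j : R) := fun g i j => rfl
  have hφ : Function.Injective φ := by
    intro g h hgh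
    ext i j
    rw [← hφval, ← hφval, hgh]
  have hle : Subgroup.closure S ≤ φ.range := by
    rw [Subgroup.closure_le]
    intro s hs
    have m1 : ∀ i j, (s : Matrix (Fin m) (Fin m) ℝ) i j ∈ R := fun i j =>
      Algebra.subset_adjoin (Or.inl (Or.inl (mem_iUnion₂.2 ⟨s, hs, (i, j), rfl⟩)))
    have m2 : ∀ i j, ((s⁻¹ : GL (Fin m) ℝ) : Matrix (Fin m) (Fin m) ℝ) i j ∈ R := fun i j =>
      Algebra.subset_adjoin (Or.inl (Or.inr (mem_iUnion₂.2 ⟨s, hs, (i, j), rfl⟩)))
    let a : Matrix (Fin m) (Fin m) R := fun i j => ⟨_, m1 i j⟩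
    let b : Matrix (Fin m) (Fin m) R := fun i j => ⟨_, m2 i j⟩
    have hinj : Function.Injective (fun M : Matrix (Fin m) (Fin m) R =>
        M.map (algebraMap R ℝ)) := by
      intro M N h
      ext i j
      exact congrFun (congrFun h i) j
    have hab : a * b = 1 := by
      apply hinj
      beta_reduce
      rw [Matrix.map_mul]
      have e1 : a.map (algebraMap R ℝ) = (s : Matrix (Fin m) (Fin m) ℝ) := rfl
      have e2 : b.map (algebraMap R ℝ) = ((s⁻¹ : GL (Fin m) ℝ) : Matrix (Fin m) (Fin m) ℝ) := rfl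
      rw [e1, e2, Units.mul_inv, Matrix.map_one _ (map_zero _) (map_one _)]
    have hba : b * a = 1 := mul_eq_one_comm.1 hab
    refine ⟨⟨a, b, hab, hba⟩, ?_⟩
    ext i j
    rfl
  obtain ⟨M, hM⟩ := Ideal.exists_maximal R
  have hft' : Algebra.FiniteType ℤ (R ⧸ M) :=
    Algebra.FiniteType.of_surjective (Ideal.Quotient.mkₐ ℤ M) (Ideal.Quotient.mkₐ_surjective ℤ M)
  have hK : Finite (R ⧸ M) := @finite_of_finiteType_int (R ⧸ M) (Ideal.Quotient.field M) hft'
  have hMat : Finite (Matrix (Fin m) (Fin m) (R ⧸ M)) := Pi.finite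
  let f : Subgroup.closure S →* GL (Fin m) (R ⧸ M) :=
    ((Matrix.GeneralLinearGroup.map (Ideal.Quotient.mk M)).comp
      (MonoidHom.ofInjective hφ).symm.toMonoidHom).comp (Subgroup.inclusion hle)
  refine ⟨GL (Fin m) (R ⧸ M), inferInstance, inferInstance, f, ?_⟩
  intro z hz hzZ hfz
  obtain ⟨z', hz'⟩ := hle hz
  have hfz' : f ⟨z, hz⟩ = Matrix.GeneralLinearGroup.map (Ideal.Quotient.mk M) z' := by
    change Matrix.GeneralLinearGroup.map (Ideal.Quotient.mk M)
      ((MonoidHom.ofInjective hφ).symm ⟨z, hle hz⟩) = _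
    congr 1
    rw [MulEquiv.symm_apply_eq]
    apply Subtype.ext
    exact hz'.symm
  rw [hfz'] at hfz
  have h2 : ∀ i j, (z' : Matrix (Fin m) (Fin m) R) i j - (1 : Matrix (Fin m) (Fin m) R) i j ∈ M := by
    intro i j
    rw [← Ideal.Quotient.eq_zero_iff_mem, map_sub, sub_eq_zero]
    have h3 := congrArg (fun g : GL (Fin m) (R ⧸ M) => g.val i j) hfz
    have h4 : (Matrix.GeneralLinearGroup.map (Ideal.Quotient.mk M) z').val i j =
        Ideal.Quotient.mk M
        ((z' : Matrix (Fin m) (Fin m) R) i j) := rfl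
    beta_reduce at h3
    rw [h4] at h3
    rw [h3, Units.val_one, Matrix.one_apply, Matrix.one_apply]
    split_ifs <;> simp
  have h5 : (d z)⁻¹ ∈ R := Algebra.subset_adjoin (Or.inr ⟨z, hzZ, rfl⟩)
  obtain ⟨h6, i, j, h9⟩ := hd z hzZ
  apply hM.ne_top
  rw [Ideal.eq_top_iff_one]
  have h7 : (1 : R) = ((z' : Matrix (Fin m) (Fin m) R) i j -
      (1 : Matrix (Fin m) (Fin m) R) i j) * ⟨(d z)⁻¹, h5⟩ := by
    apply Subtype.ext
    have h8 : (((z' : Matrix (Fin m) (Fin m) R) i j -
      (1 : Matrix (Fin m) (Fin m) R) i j : R) : ℝ) = d z := by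
      rw [AddSubgroupClass.coe_sub, ← hφval, hz', ← h9]
      congr 1
      rw [Matrix.one_apply, Matrix.one_apply]
      split_ifs <;> simp
    rw [MulMemClass.coe_mul, h8, OneMemClass.coe_one, mul_inv_cancel₀ h6]
  rw [h7]
  exact Ideal.mul_mem_right _ _ (h2 _ _)

end Pool.Agent.Lat
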