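import Pool.Agent.Lib_helper41.Lat.Fix

/-!
# Projections of the lattice
-/

namespace Pool.Agent.Lat

open Set Topology

/-- the inclusion `G₀ × P → G × P` -/
def incl {G : Type*} [Group G] (G₀ : Subgroup G) (P : Type*) [Group P] : G₀ × P →* G × P :=
  MonoidHom.prodMap G₀.subtype (MonoidHom.id P)

variable {X : Type*} [MetricSpace X] {G : Type*} [Group G] {n : ℕ} {A : Subgroup (X ≃ᵢ X)}

/-- projection of the lattice to `G` -/
noncomputable def prG (Γ : Subgroup (G × (EE n ≃ᵢ EE n) × A)) : Γ →* G :=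
  (MonoidHom.fst G _).comp Γ.subtype

/-- projection of the lattice to `Isom(E^n)` -/
noncomputable def prV (Γ : Subgroup (G × (EE n ≃ᵢ EE n) × A)) : Γ →* (EE n ≃ᵢ EE n) :=
  ((MonoidHom.fst (EE n ≃ᵢ EE n) A).comp (MonoidHom.snd G _)).comp Γ.subtype

/-- projection of the lattice to `Isom(X)` -/
noncomputable def prX (Γ : Subgroup (G × (EE n ≃ᵢ EE n) × A)) : Γ →* (X ≃ᵢ X) :=
  (A.subtype.comp ((MonoidHom.snd (EE n ≃ᵢ EE n) A).comp (MonoidHom.snd G _))).comp Γ.subtype

/-- stabiliser of a point of `X` in the lattice -/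
noncomputable def stabX (Γ : Subgroup (G × (EE n ≃ᵢ EE n) × A)) (x : X) : Subgroup Γ where
  carrier := {γ | prX Γ γ x = x}
  one_mem' := by simp
  mul_mem' := by
    intro a b ha hb
    simp only [mem_ofPred_eq] at ha hb ⊢
    rw [map_mul, IsometryEquiv.mul_apply, hb, ha]
  inv_mem' := by
    intro a ha
    simp only [mem_ofPred_eq] at ha ⊢
    conv_lhs => rw [← ha]
    simp

end Pool.Agent.Lat
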