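import Pool.Agent.Lib_helper41.Lat.Kill
import Pool.Agent.Lib_helper41.Lat.Malcev

/-!
# Reduction to the quotient by the centre
-/

namespace Pool.Agent.Lat

open Set Topology Filter
open scoped Pointwise

set_option linter.unusedSectionVars false

section Fin
variable {L : Type*} [Group L]

/-- `Γ₁` has finite index in `Γ` -/
def FinIn (Γ₁ Γ : Subgroup L) : Prop :=
  Γ₁ ≤ Γ ∧ ∃ S : Set L, S.Finite ∧ ∀ γ ∈ Γ, ∃ γ₁ ∈ Γ₁, ∃ s ∈ S, γ = γ₁ * s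

theorem FinIn.irr {Γ₁ Γ : Subgroup L} (h : FinIn Γ₁ Γ) (hirr : IrrProp Γ) : IrrProp Γ₁ := by
  intro N C hN hC hcomm hinf ⟨S, hS, hcov⟩
  obtain ⟨hle, T, hT, hcovT⟩ := h
  refine hirr N C (hN.trans hle) (hC.trans hle) hcomm hinf
    ⟨(fun p : L × L => p.1 * p.2) '' (S ×ˢ T), (hS.prod hT).image _, ?_⟩
  intro γ hγ
  obtain ⟨γ₁, hγ₁, t, ht, rfl⟩ := hcovT γ hγ
  obtain ⟨a, ha, c, hc, s, hs, rfl⟩ := hcov γ₁ hγ₁
  exact ⟨a, ha, c, hc, s * t, ⟨(s, t), ⟨hs, ht⟩, rfl⟩, by group⟩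

theorem FinIn.cocompact [TopologicalSpace L] [IsTopologicalGroup L] {Γ₁ Γ : Subgroup L}
    (h : FinIn Γ₁ Γ) (hc : Cocompact (Γ : Set L)) : Cocompact (Γ₁ : Set L) := by
  obtain ⟨hle, T, hT, hcovT⟩ := h
  obtain ⟨Q, hQ, hcov⟩ := hc
  refine ⟨T * Q, hT.isCompact.mul hQ, fun g => ?_⟩
  obtain ⟨γ, hγ, q, hq, rfl⟩ := hcov g
  obtain ⟨γ₁, hγ₁, t, ht, rfl⟩ := hcovT γ hγ
  exact ⟨γ₁, hγ₁, t * q, Set.mul_mem_mul ht hq, by group⟩

/-- image under a homomorphism injective on the subgroup -/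
theorem irr_map {M : Type*} [Group M] {Γ : Subgroup L} (q : L →* M)
    (hq : ∀ γ ∈ Γ, q γ = 1 → γ = 1) (hirr : IrrProp Γ) : IrrProp (Γ.map q) := by
  intro N C hN hC hcomm hinf ⟨S, hS, hcov⟩
  have hinj : ∀ a ∈ Γ, ∀ b ∈ Γ, q a = q b → a = b := by
    intro a ha b hb hab
    have := hq (a * b⁻¹) (Γ.mul_mem ha (Γ.inv_mem hb)) (by rw [map_mul, map_inv, hab]; group)
    exact mul_inv_eq_one.1 this
  have hfin : ∀ T : Set M, T.Finite → {γ | γ ∈ Γ ∧ q γ ∈ T}.Finite := by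
    intro T hT
    refine Set.Finite.of_finite_image (f := q) (hT.subset ?_) ?_
    · rintro _ ⟨γ, ⟨_, h⟩, rfl⟩; exact h
    · intro a ha b hb hab
      exact hinj a ha.1 b hb.1 hab
  have himg : ∀ K : Subgroup M, K ≤ Γ.map q → ((Γ ⊓ K.comap q : Subgroup L) : Set L).Finite →
      (K : Set M).Finite := by
    intro K hK hfinK
    refine (hfinK.image q).subset ?_
    intro k hk
    obtain ⟨γ, hγ, rfl⟩ := hK hk
    exact ⟨γ, ⟨hγ, hk⟩, rfl⟩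
  have h := hirr (Γ ⊓ N.comap q) (Γ ⊓ C.comap q) inf_le_left inf_le_left ?_ ?_ ?_
  · rcases h with h | h
    · exact Or.inl (himg N hN h)
    · exact Or.inr (himg C hC h)
  · rintro a ⟨ha, ha'⟩ c ⟨hc, hc'⟩
    refine hinj _ (Γ.mul_mem ha hc) _ (Γ.mul_mem hc ha) ?_
    rw [map_mul, map_mul]
    exact hcomm _ ha' _ hc'
  · rw [eq_bot_iff]
    rintro x ⟨⟨hx, hx1⟩, ⟨_, hx2⟩⟩
    have h1 : q x ∈ N ⊓ C := ⟨hx1, hx2⟩
    rw [hinf, Subgroup.mem_bot] at h1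
    rw [Subgroup.mem_bot]
    exact hq x hx h1
  · refine ⟨{γ | γ ∈ Γ ∧ q γ ∈ S}, hfin S hS, ?_⟩
    intro γ hγ
    obtain ⟨a', ha', c', hc', s', hs', he⟩ := hcov (q γ) ⟨γ, hγ, rfl⟩
    obtain ⟨a, ha, rfl⟩ := hN ha'
    obtain ⟨c, hc, rfl⟩ := hC hc'
    refine ⟨a, ⟨ha, ha'⟩, c, ⟨hc, hc'⟩, (a * c)⁻¹ * γ,
      ⟨Γ.mul_mem (Γ.inv_mem (Γ.mul_mem ha hc)) hγ, ?_⟩, by group⟩
    have : q ((a * c)⁻¹ * γ) = s' := by
      rw [map_mul, map_inv, map_mul, he]; group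
    rw [this]; exact hs'

end Fin

section Res
variable {G : Type*} [Group G] [TopologicalSpace G] [IsTopologicalGroup G]
  {P : Type*} [Group P]

/-- a finitely generated subgroup of `G × P` has a finite index subgroup without nontrivial
elements whose first coordinate is central -/
theorem exists_centerfree (hG : IsLinearSemisimple G) (Γ : Subgroup (G × P))
    (hfg : ∃ F : Set (G × P), F.Finite ∧ Subgroup.closure F = Γ) :
    ∃ Γ₁ : Subgroup (G × P), FinIn Γ₁ Γ ∧ (∀ γ ∈ Γ₁, γ.1 ∈ Subgroup.center G → γ.1 = 1) ∧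
      ∃ k : ℕ, 0 < k ∧ ∀ γ ∈ Γ, γ ^ k ∈ Γ₁ := by
  classical
  obtain ⟨m, ρ, hρ, hR⟩ := hG.toSS
  obtain ⟨F, hF, hFΓ⟩ := hfg
  have hfin : (Subgroup.center G : Set G).Finite := hG.2.1
  let π : G × P →* GL (Fin m) ℝ := ρ.comp (MonoidHom.fst G P)
  obtain ⟨E, _, _, f, hf⟩ := residual (π '' F) (hF.image _)
    ((ρ '' (Subgroup.center G : Set G)) \ {1}) ((hfin.image _).subset sdiff_subset)
    (fun h => h.2 rfl)
  have hmem : ∀ γ : Γ, π γ ∈ Subgroup.closure (π '' F) := by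
    rintro ⟨γ, hγ⟩
    rw [← hFΓ] at hγ
    rw [← MonoidHom.map_closure]
    exact ⟨γ, hγ, rfl⟩
  let h : Γ →* E := f.comp ((π.comp Γ.subtype).codRestrict _ hmem)
  let rep : E → G × P := fun c => if hc : ∃ γ : Γ, h γ = c then (hc.choose : G × P) else 1
  have hrep : ∀ c, (∃ γ : Γ, h γ = c) → ∃ hr : rep c ∈ Γ, h ⟨rep c, hr⟩ = c := by
    intro c hc
    simp only [rep, dif_pos hc]
    exact ⟨hc.choose.2, hc.choose_spec⟩
  refine ⟨h.ker.map Γ.subtype, ⟨?_, range rep, finite_range rep, ?_⟩, ?_, Nat.card E,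
    Nat.card_pos, ?_⟩
  · rintro _ ⟨γ, -, rfl⟩
    exact γ.2
  · intro γ hγ
    obtain ⟨hr, hr'⟩ := hrep (h ⟨γ, hγ⟩) ⟨_, rfl⟩
    refine ⟨γ * (rep (h ⟨γ, hγ⟩))⁻¹, ⟨⟨γ, hγ⟩ * ⟨rep (h ⟨γ, hγ⟩), hr⟩⁻¹, ?_, rfl⟩,
      rep (h ⟨γ, hγ⟩), ⟨_, rfl⟩, by group⟩
    change h _ = 1
    rw [map_mul, map_inv, hr']; group
  · rintro _ ⟨⟨γ, hγ⟩, hker, rfl⟩ hcen
    by_contra hne
    change γ.1 ∈ _ at hcen
    change ¬ γ.1 = 1 at hne
    refine hf (π γ) (hmem ⟨γ, hγ⟩) ⟨⟨γ.1, hcen, rfl⟩, ?_⟩ hker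
    intro h1
    have h2 : ρ γ.1 = 1 := h1
    rw [← map_one ρ] at h2
    exact hne (hρ.injective h2)
  · intro γ hγ
    refine ⟨⟨γ, hγ⟩ ^ Nat.card E, ?_, rfl⟩
    change h _ = 1
    rw [map_pow, pow_card_eq_one']

end Res

section Quot
variable {G : Type*} [Group G] [TopologicalSpace G] [IsTopologicalGroup G]
  {P : Type*} [Group P] [TopologicalSpace P] [IsTopologicalGroup P]

/-- the projection `G × P → (G / Z) × P` -/
def adP (G P : Type*) [Group G] [Group P] : G × P →* AdG G × P :=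
  MonoidHom.prodMap (ad G) (MonoidHom.id P)

theorem continuous_adP : Continuous (adP G P) :=
  (continuous_ad (G := G)).prodMap continuous_id

theorem adP_eq_one {γ : G × P} : adP G P γ = 1 ↔ γ.1 ∈ Subgroup.center G ∧ γ.2 = 1 := by
  rw [Prod.ext_iff]
  change ad G γ.1 = 1 ∧ γ.2 = 1 ↔ _
  rw [show (ad G γ.1 = 1) ↔ γ.1 ∈ Subgroup.center G from QuotientGroup.eq_one_iff _]

theorem cocompact_adP {Γ : Subgroup (G × P)} (h : Cocompact (Γ : Set (G × P))) :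
    Cocompact ((Γ.map (adP G P) : Subgroup (AdG G × P)) : Set (AdG G × P)) := by
  obtain ⟨Q, hQ, hcov⟩ := h
  refine ⟨adP G P '' Q, hQ.image continuous_adP, ?_⟩
  rintro ⟨x, p⟩
  obtain ⟨g, rfl⟩ := ad_surj x
  obtain ⟨γ, hγ, q, hq, he⟩ := hcov (g, p)
  refine ⟨adP G P γ, ⟨γ, hγ, rfl⟩, adP G P q, ⟨q, hq, rfl⟩, ?_⟩
  rw [← map_mul, ← he]; rfl

theorem disc_adP [T2Space G] [T2Space P] (hfin : (Subgroup.center G : Set G).Finite)
    {Γ : Subgroup (G × P)} (h : Disc Γ) : Disc (Γ.map (adP G P)) := by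
  classical
  obtain ⟨U, hU, hUΓ⟩ := h
  obtain ⟨V, hV, hVV⟩ := exists_nhds_split_inv hU
  -- for each central `z` a neighbourhood
  have key : ∀ z ∈ Subgroup.center G, ∃ W ∈ 𝓝 (1 : G × P), ∀ γ ∈ Γ,
      ((z, 1) : G × P) * γ ∈ W → adP G P γ = 1 := by
    intro z hz
    by_cases hex : ∃ γ₀ ∈ Γ, ((z, 1) : G × P) * γ₀ ∈ V ∧ ((z, 1) : G × P) * γ₀ ≠ 1
    · obtain ⟨γ₀, hγ₀, hV₀, hne⟩ := hex
      refine ⟨V ∩ {((z, 1) : G × P) * γ₀}ᶜ,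
        inter_mem hV (isClosed_singleton.isOpen_compl.mem_nhds (fun h => hne h.symm)), ?_⟩
      rintro γ hγ ⟨hγV, hγne⟩
      exfalso
      apply hγne
      have h1 := hVV _ hγV _ hV₀
      have h2 : (z, 1) * γ / ((z, 1) * γ₀) = ((z, 1) : G × P) * (γ * γ₀⁻¹) * (z, 1)⁻¹ := by
        rw [div_eq_mul_inv]; group
      have h3 : ((z, 1) : G × P) * (γ * γ₀⁻¹) * (z, 1)⁻¹ = γ * γ₀⁻¹ := by
        refine Prod.ext ?_ ?_
        · change z * (γ.1 * γ₀.1⁻¹) * z⁻¹ = γ.1 * γ₀.1⁻¹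
          rw [← Subgroup.mem_center_iff.1 hz]; group
        · change 1 * (γ.2 * γ₀.2⁻¹) * 1⁻¹ = γ.2 * γ₀.2⁻¹
          simp
      rw [h2, h3] at h1
      have h4 := hUΓ _ (Γ.mul_mem hγ (Γ.inv_mem hγ₀)) h1
      have h5 : γ = γ₀ := mul_inv_eq_one.1 h4
      rw [h5]; rfl
    · push Not at hex
      refine ⟨V, hV, fun γ hγ hγV => ?_⟩
      have h1 := hex γ hγ hγV
      rw [adP_eq_one]
      have h2 : γ.1 = z⁻¹ := by
        have := congrArg Prod.fst h1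
        change z * γ.1 = 1 at this
        exact eq_inv_of_mul_eq_one_right this
      have h3 : γ.2 = 1 := by
        have := congrArg Prod.snd h1
        change 1 * γ.2 = 1 at this
        rwa [one_mul] at this
      exact ⟨by rw [h2]; exact (Subgroup.center G).inv_mem hz, h3⟩
  choose! W hW hWΓ using key
  have hWi : (⋂ z ∈ (Subgroup.center G : Set G), W z) ∈ 𝓝 (1 : G × P) :=
    (biInter_mem hfin).2 fun z hz => hW z hz
  refine ⟨adP G P '' (⋂ z ∈ (Subgroup.center G : Set G), W z), ?_, ?_⟩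
  · have ho : IsOpenMap (adP G P) := (isOpenMap_ad (G := G)).prodMap IsOpenMap.id
    rw [← map_one (adP G P)]
    exact ho.image_mem_nhds hWi
  · rintro _ ⟨γ, hγ, rfl⟩ ⟨w, hw, he⟩
    -- `w = z γ`
    have h1 : (adP G P) (w * γ⁻¹) = 1 := by rw [map_mul, map_inv, he]; group
    obtain ⟨h2, h3⟩ := adP_eq_one.1 h1
    have h4 : w = ((w * γ⁻¹).1, 1) * γ := by
      refine Prod.ext ?_ ?_
      · change w.1 = w.1 * γ.1⁻¹ * γ.1
        group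
      · change w.2 = 1 * γ.2
        have : w.2 * γ.2⁻¹ = 1 := h3
        rw [one_mul]; exact mul_inv_eq_one.1 this
    have h5 := mem_iInter₂.1 hw (w * γ⁻¹).1 h2
    rw [h4] at h5
    have h6 : ((w * γ⁻¹).1, (1 : P)) * γ = ((w * γ⁻¹).1, 1) * γ := rfl
    refine hWΓ (w * γ⁻¹).1 h2 γ hγ ?_
    convert h5 using 2
    rw [← h4]

end Quot

section Core
variable {X : Type*} [MetricSpace X] {G : Type*} [Group G] [TopologicalSpace G]
  [IsTopologicalGroup G] {n : ℕ} {A : Subgroup (X ≃ᵢ X)}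

theorem kill_lin [ProperSpace X] (hX : IsCAT0 X) (hA : IsClosed (A : Set (X ≃ᵢ X)))
    (hstab : ∀ x : X, ∃ U ∈ 𝓝 (1 : X ≃ᵢ X), ∀ f ∈ U, f ∈ A → f x = x)
    (hco : ActsCocompactly A) (hmin : ActsMinimally A) (hG : IsLinearSemisimple G)
    (Γ : Subgroup (G × (EE n ≃ᵢ EE n) × A)) (hΓ : Disc Γ)
    (hcoc : Cocompact (Γ : Set (G × (EE n ≃ᵢ EE n) × A))) (hirr : IrrProp Γ)
    (hinf : ¬ ((fun ℓ : G × (EE n ≃ᵢ EE n) × A => ℓ.2.2) '' (Γ : Set _)).Finite)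
    (φ : Γ → ℝ) (hφ : ∀ x y, φ (x * y) = φ x + φ y) (x : X) (γ : Γ) (hγ : prX Γ γ x = x) :
    φ γ = 0 := by
  classical
  obtain ⟨hLC, hSC, hT2⟩ := ss_topology hG
  have hfin : (Subgroup.center G : Set G).Finite := hG.2.1
  -- finite generation
  have hfg : ∃ F : Set (G × (EE n ≃ᵢ EE n) × A), F.Finite ∧ Subgroup.closure F = Γ := by
    have hg := compactlyGen_L (n := n) hX hA hco (ss_compactlyGen hG)
    have h1 : CocompactIn (Γ : Set (G × (EE n ≃ᵢ EE n) × A))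
        (Subgroup.comap (MonoidHom.fst G ((EE n ≃ᵢ EE n) × A)) ⊤) := by
      obtain ⟨Q, hQ, h⟩ := hcoc
      exact ⟨Q, hQ, fun _ _ => trivial, fun g _ => h g⟩
    obtain ⟨F, hF, _, hcl⟩ := fg_of_cocompactIn hΓ
      (show Γ ≤ Subgroup.comap (MonoidHom.fst G ((EE n ≃ᵢ EE n) × A)) ⊤ from
        fun _ _ => trivial) h1 hg
    exact ⟨F, hF, hcl⟩
  obtain ⟨Γ₁, hΓ₁, hcf, k, hk, hpow⟩ := exists_centerfree hG Γ hfg
  have hle : Γ₁ ≤ Γ := hΓ₁.1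
  let P := (EE n ≃ᵢ EE n) × A
  let Γ₂ : Subgroup (AdG G × P) := Γ₁.map (adP G P)
  have hinj1 : ∀ γ ∈ Γ₁, adP G P γ = 1 → γ = 1 := by
    intro γ hγ h
    obtain ⟨h1, h2⟩ := adP_eq_one.1 h
    exact Prod.ext (hcf γ hγ h1) h2
  have hinj : ∀ a ∈ Γ₁, ∀ b ∈ Γ₁, adP G P a = adP G P b → a = b := by
    intro a ha b hb hab
    have := hinj1 (a * b⁻¹) (Γ₁.mul_mem ha (Γ₁.inv_mem hb)) (by
      rw [map_mul, map_inv, hab]; group)
    exact mul_inv_eq_one.1 this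
  have hd₂ : Disc Γ₂ := disc_adP hfin (hΓ.mono hle)
  have hc₂ : Cocompact (Γ₂ : Set (AdG G × P)) := cocompact_adP (hΓ₁.cocompact hcoc)
  have hi₂ : IrrProp Γ₂ := irr_map _ hinj1 (hΓ₁.irr hirr)
  have hinf₂ : ¬ ((fun ℓ : AdG G × (EE n ≃ᵢ EE n) × A => ℓ.2.2) '' (Γ₂ : Set _)).Finite := by
    intro h
    apply hinf
    obtain ⟨_, S, hS, hSΓ⟩ := hΓ₁
    refine (h.mul (hS.image (fun ℓ : G × (EE n ≃ᵢ EE n) × A => ℓ.2.2))).subset ?_
    rintro _ ⟨γ, hγ, rfl⟩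
    obtain ⟨γ₁, hγ₁, s, hs, rfl⟩ := hSΓ γ hγ
    exact ⟨γ₁.2.2, ⟨adP G P γ₁, ⟨γ₁, hγ₁, rfl⟩, rfl⟩, s.2.2, ⟨s, hs, rfl⟩, rfl⟩
  -- the homomorphism on the image
  have hlift : ∀ δ : Γ₂, ∃ γ : Γ, (γ : G × P) ∈ Γ₁ ∧ adP G P γ = δ := by
    rintro ⟨_, γ, hγ, rfl⟩
    exact ⟨⟨γ, hle hγ⟩, hγ, rfl⟩
  choose lft hlft1 hlft2 using hlift
  let φ₂ : Γ₂ → ℝ := fun δ => φ (lft δ)
  have hφ₂ : ∀ x y, φ₂ (x * y) = φ₂ x + φ₂ y := by
    intro a b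
    change φ (lft (a * b)) = φ (lft a) + φ (lft b)
    rw [← hφ]
    congr 1
    apply Subtype.ext
    refine hinj _ (hlft1 _) _ (Γ₁.mul_mem (hlft1 a) (hlft1 b)) ?_
    rw [hlft2, Subgroup.coe_mul, Subgroup.coe_mul, map_mul, hlft2, hlft2]
  have hpk : (γ : G × P) ^ k ∈ Γ₁ := hpow γ γ.2
  let δ : Γ₂ := ⟨adP G P ((γ : G × P) ^ k), ⟨_, hpk, rfl⟩⟩
  have hδx : prX Γ₂ δ x = x := by
    have h1 : prX Γ₂ δ = (prX Γ γ) ^ k := rfl
    rw [h1]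
    have : ∀ j : ℕ, ((prX Γ γ) ^ j) x = x := by
      intro j
      induction j with
      | zero => simp
      | succ j ih => rw [pow_succ, IsometryEquiv.mul_apply, hγ, ih]
    exact this k
  have h0 := kill_stab hX hA hstab hco hmin (ssi_ad hG) Γ₂ hd₂ hc₂ hi₂ hinf₂ φ₂ hφ₂ x δ hδx
  have h1 : lft δ = γ ^ k := by
    apply Subtype.ext
    exact hinj _ (hlft1 _) _ hpk (hlft2 δ)
  have h2 : φ (γ ^ k) = 0 := by
    rw [← h1]; exact h0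
  have hone : φ 1 = 0 := by
    have := hφ 1 1
    rw [mul_one] at this
    linarith
  have h3 : ∀ j : ℕ, φ (γ ^ j) = j * φ γ := by
    intro j
    induction j with
    | zero => simp [hone]
    | succ j ih => rw [pow_succ, hφ, ih]; push_cast; ring
  rw [h3] at h2
  have hk' : (k : ℝ) ≠ 0 := by exact_mod_cast hk.ne'
  exact (mul_eq_zero.1 h2).resolve_left hk'

end Core

end Pool.Agent.Lat
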